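import Mathlib

/-!
Polygon colourings of the Euclidean plane.
-/

set_option autoImplicit false

namespace Pool.Agent.N466.Poly

open Set

/-- the Euclidean plane -/
abbrev Plane : Type := EuclideanSpace ℝ (Fin 2)

/-- A polygon colouring with colour set `S`. The regions are open, connected and bounded sets whose
boundary consists of vertices and borders. -/
structure PolygonColoring (S : Type) where
  /-- the colour of every point of the plane -/
  color : Plane → S
  /-- the vertices, the borders (as sets of points) and the regions -/
  vertices : Set Plane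
  borders : Set (Set Plane)
  regions : Set (Set Plane)
  /-- points at distance one have different colours -/
  unit_ne : ∀ x y : Plane, dist x y = 1 → color x ≠ color y
  /-- borders are open segments whose two end points are vertices -/
  border_eq : ∀ b ∈ borders, ∃ p ∈ vertices, ∃ q ∈ vertices, p ≠ q ∧ b = openSegment ℝ p q
  /-- regions are open polygons bounded by borders and vertices -/
  region_open : ∀ R ∈ regions, IsOpen R
  region_conn : ∀ R ∈ regions, IsConnected R
  region_bdd : ∀ R ∈ regions, Bornology.IsBounded R
  region_frontier : ∀ R ∈ regions, ∀ x ∈ frontier R,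
    x ∈ vertices ∨ ∃ b ∈ borders, x ∈ b ∧ b ⊆ frontier R
  /-- every point is a vertex or in a border or in a region, and in only one of them -/
  cover : ∀ x : Plane, x ∈ vertices ∨ (∃ b ∈ borders, x ∈ b) ∨ ∃ R ∈ regions, x ∈ R
  vertex_border : ∀ b ∈ borders, Disjoint vertices b
  vertex_region : ∀ R ∈ regions, Disjoint vertices R
  border_region : ∀ b ∈ borders, ∀ R ∈ regions, Disjoint b R
  border_disj : ∀ b ∈ borders, ∀ b' ∈ borders, b ≠ b' → Disjoint b b'
  region_disj : ∀ R ∈ regions, ∀ R' ∈ regions, R ≠ R' → Disjoint R R'
  /-- the colouring is constant on every region -/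
  color_const : ∀ R ∈ regions, ∀ x ∈ R, ∀ y ∈ R, color x = color y
  /-- regions whose boundaries contain a common vertex or a common border have different colours -/
  color_ne : ∀ R ∈ regions, ∀ R' ∈ regions, R ≠ R' →
    ((∃ p ∈ vertices, p ∈ frontier R ∧ p ∈ frontier R') ∨
      ∃ b ∈ borders, b ⊆ frontier R ∧ b ⊆ frontier R') →
    ∀ x ∈ R, ∀ y ∈ R', color x ≠ color y
  /-- at every vertex two borders end whose angle is not `π` -/
  corner : ∀ p ∈ vertices, ∃ q ∈ vertices, ∃ q' ∈ vertices, openSegment ℝ p q ∈ borders ∧
    openSegment ℝ p q' ∈ borders ∧ openSegment ℝ p q ≠ openSegment ℝ p q' ∧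
    EuclideanGeometry.angle q p q' ≠ Real.pi
  /-- local finiteness -/
  finite_vertices : ∀ (x : Plane) (r : ℝ), (vertices ∩ Metric.closedBall x r).Finite
  finite_borders : ∀ (x : Plane) (r : ℝ), {b ∈ borders | (b ∩ Metric.closedBall x r).Nonempty}.Finite
  finite_regions : ∀ (x : Plane) (r : ℝ), {R ∈ regions | (R ∩ Metric.closedBall x r).Nonempty}.Finite

/-- the number of borders that have the vertex `p` as an end point -/
noncomputable def PolygonColoring.degree {S : Type} (P : PolygonColoring S) (p : Plane) : ℕ∞ :=
  {b ∈ P.borders | ∃ q ∈ P.vertices, q ≠ p ∧ b = openSegment ℝ p q}.encard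

end Pool.Agent.N466.Poly
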