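import Pool.Agent.N466.Poly.Defs

set_option autoImplicit false

namespace Pool.Agent.N466.Poly

open Set

section seg

variable {E : Type*} [NormedAddCommGroup E] [NormedSpace ℝ E]

/-- the unit vector in direction `d` -/
noncomputable def dir (d : E) : E := ‖d‖⁻¹ • d

lemma seg_mem {x y p : E} : p ∈ openSegment ℝ x y ↔ ∃ t : ℝ, 0 < t ∧ t < 1 ∧ p = x + t • (y - x) := by
  rw [openSegment_eq_image']
  constructor
  · rintro ⟨t, ht, rfl⟩; exact ⟨t, ht.1, ht.2, rfl⟩
  · rintro ⟨t, h1, h2, rfl⟩; exact ⟨t, ⟨h1, h2⟩, rfl⟩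

lemma of_smul {d u : E} {s c : ℝ} (hs : 0 < s) (hu : ‖u‖ = 1) (h : s • u = c • d) (hc : 0 < c) :
    u = dir d ∧ s = c * ‖d‖ := by
  have h1 : s = c * ‖d‖ := by
    have := congrArg norm h
    rw [norm_smul, norm_smul, hu, mul_one, Real.norm_eq_abs, Real.norm_eq_abs, abs_of_pos hs,
      abs_of_pos hc] at this
    exact this
  have hd : ‖d‖ ≠ 0 := by
    intro h0; rw [h0, mul_zero] at h1; linarith
  refine ⟨?_, h1⟩
  have h2 : u = s⁻¹ • (s • u) := by rw [smul_smul, inv_mul_cancel₀ hs.ne', one_smul]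
  rw [h2, h, smul_smul, dir]
  congr 1
  rw [h1]
  field_simp

lemma seg_local_end {x y : E} (hxy : x ≠ y) : ∀ s (u : E), 0 < s → s < ‖y - x‖ → ‖u‖ = 1 →
    (x + s • u ∈ openSegment ℝ x y ↔ u ∈ ({dir (y - x)} : Finset E)) := by
  intro s u hs hs' hu
  have hd : 0 < ‖y - x‖ := norm_pos_iff.2 (sub_ne_zero.2 (Ne.symm hxy))
  rw [seg_mem, Finset.mem_singleton]
  constructor
  · rintro ⟨t, h1, h2, h3⟩
    exact (of_smul hs hu (add_left_cancel h3) h1).1
  · rintro rfl
    refine ⟨s / ‖y - x‖, by positivity, by rw [div_lt_one hd]; exact hs', ?_⟩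
    rw [dir, smul_smul, div_eq_mul_inv]

lemma seg_local_mid {x y p : E} (hxy : x ≠ y) (hp : p ∈ openSegment ℝ x y) :
    ∃ ρ : ℝ, 0 < ρ ∧ ∀ s (u : E), 0 < s → s < ρ → ‖u‖ = 1 →
    (p + s • u ∈ openSegment ℝ x y ↔ u = dir (y - x) ∨ u = - dir (y - x)) := by
  have hd : 0 < ‖y - x‖ := norm_pos_iff.2 (sub_ne_zero.2 (Ne.symm hxy))
  obtain ⟨θ, h0, h1, rfl⟩ := seg_mem.1 hp
  refine ⟨min θ (1 - θ) * ‖y - x‖, by have : 0 < min θ (1 - θ) := lt_min h0 (by linarith)
                                      positivity, ?_⟩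
  intro s u hs hs' hu
  have hs1 : s / ‖y - x‖ < min θ (1 - θ) := by rwa [div_lt_iff₀ hd]
  have hs2 : s / ‖y - x‖ < θ := lt_of_lt_of_le hs1 (min_le_left _ _)
  have hs3 : s / ‖y - x‖ < 1 - θ := lt_of_lt_of_le hs1 (min_le_right _ _)
  have hs4 : 0 < s / ‖y - x‖ := by positivity
  rw [seg_mem]
  constructor
  · rintro ⟨t, h2, h3, h4⟩
    have h5 : s • u = (t - θ) • (y - x) := by
      have h6 : x + (θ • (y - x) + s • u) = x + t • (y - x) := by rw [← h4, add_assoc]
      rw [sub_smul, ← add_left_cancel h6]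
      abel
    rcases lt_trichotomy t θ with h6 | h6 | h6
    · right
      have h7 : s • u = (θ - t) • (-(y - x)) := by rw [h5, smul_neg, ← neg_smul]; congr 1; ring
      rw [(of_smul hs hu h7 (by linarith)).1, dir, dir, norm_neg, smul_neg]
    · exfalso
      rw [h6, sub_self, zero_smul] at h5
      rcases smul_eq_zero.1 h5 with h7 | h7
      · linarith
      · rw [h7, norm_zero] at hu; norm_num at hu
    · left
      exact (of_smul hs hu h5 (by linarith)).1
  · rintro (rfl | rfl)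
    · refine ⟨θ + s / ‖y - x‖, by linarith, by linarith, ?_⟩
      rw [dir, smul_smul, add_smul, div_eq_mul_inv, add_assoc]
    · refine ⟨θ - s / ‖y - x‖, by linarith, by linarith, ?_⟩
      rw [dir, smul_neg, smul_smul, sub_smul, div_eq_mul_inv]
      abel

/-- the rays from `p` that start inside a given open segment -/
lemma seg_local {x y : E} (hxy : x ≠ y) (p : E) : ∃ (ρ : ℝ) (Θ : Finset E), 0 < ρ ∧
    (∀ s (u : E), 0 < s → s < ρ → ‖u‖ = 1 → (p + s • u ∈ openSegment ℝ x y ↔ u ∈ Θ)) ∧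
    Θ.card ≤ 2 ∧ (p ∉ openSegment ℝ x y → Θ.card ≤ 1 ∧ (p ≠ x → p ≠ y → Θ = ∅)) := by
  classical
  by_cases hp : p ∈ openSegment ℝ x y
  · obtain ⟨ρ, hρ, h⟩ := seg_local_mid hxy hp
    refine ⟨ρ, {dir (y - x), - dir (y - x)}, hρ, ?_, Finset.card_le_two, fun h => absurd hp h⟩
    intro s u h1 h2 h3
    rw [h s u h1 h2 h3]
    simp
  by_cases hpx : p = x
  · subst hpx
    exact ⟨‖y - p‖, {dir (y - p)}, norm_pos_iff.2 (sub_ne_zero.2 (Ne.symm hxy)), seg_local_end hxy,
      by simp, fun _ => ⟨by simp, fun h => absurd rfl h⟩⟩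
  by_cases hpy : p = y
  · subst hpy
    rw [openSegment_symm]
    exact ⟨‖x - p‖, {dir (x - p)}, norm_pos_iff.2 (sub_ne_zero.2 hxy), seg_local_end (Ne.symm hxy),
      by simp, fun _ => ⟨by simp, fun _ h => absurd rfl h⟩⟩
  · have hpS : p ∉ segment ℝ x y := by
      intro h
      rw [← insert_endpoints_openSegment] at h
      rcases h with h | h | h
      · exact hpx h
      · exact hpy h
      · exact hp h
    have hcl : IsClosed (segment ℝ x y) := by
      rw [← convexHull_pair]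
      exact ((Set.toFinite {x, y}).isCompact_convexHull ℝ).isClosed
    obtain ⟨ρ, hρ, hball⟩ := Metric.isOpen_iff.1 hcl.isOpen_compl p hpS
    refine ⟨ρ, ∅, hρ, ?_, by simp, fun _ => ⟨by simp, fun _ _ => rfl⟩⟩
    intro s u h1 h2 h3
    simp only [Finset.notMem_empty, iff_false]
    intro h
    have h4 : p + s • u ∈ Metric.ball p ρ := by
      rw [Metric.mem_ball, dist_eq_norm, add_sub_cancel_left, norm_smul, h3, mul_one,
        Real.norm_eq_abs, abs_of_pos h1]
      exact h2
    exact hball h4 (openSegment_subset_segment _ _ _ h)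

end seg

lemma exists_min_pos {α : Type*} (F : Finset α) {f : α → ℝ} (hf : ∀ b ∈ F, 0 < f b) :
    ∃ r : ℝ, 0 < r ∧ ∀ b ∈ F, r ≤ f b := by
  classical
  induction F using Finset.induction_on with
  | empty => exact ⟨1, one_pos, fun b hb => absurd hb (Finset.notMem_empty b)⟩
  | insert a F _ ih =>
    obtain ⟨r, hr, h⟩ := ih (fun b hb => hf b (Finset.mem_insert_of_mem hb))
    refine ⟨min r (f a), lt_min hr (hf a (Finset.mem_insert_self _ _)), ?_⟩
    intro b hb
    rcases Finset.mem_insert.1 hb with rfl | hb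
    · exact min_le_right _ _
    · exact (min_le_left _ _).trans (h b hb)

variable {S : Type}

/-- the local structure of a polygon colouring at a vertex or at a border point -/
theorem local_structure (P : PolygonColoring S) (hdeg : ∀ p ∈ P.vertices, P.degree p ≤ 3)
    {p : Plane} (hp : p ∈ P.vertices ∨ ∃ b ∈ P.borders, p ∈ b) :
    ∃ (ρ : ℝ) (Θ : Finset Plane), 0 < ρ ∧ Θ.card ≤ 3 ∧
      ∀ s (u : Plane), 0 < s → s < ρ → ‖u‖ = 1 → ((∃ R ∈ P.regions, p + s • u ∈ R) ↔ u ∉ Θ) := by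
  classical
  have hb : ∀ b ∈ P.borders, ∃ (ρ : ℝ) (Θ : Finset Plane), 0 < ρ ∧
      (∀ s (u : Plane), 0 < s → s < ρ → ‖u‖ = 1 → (p + s • u ∈ b ↔ u ∈ Θ)) ∧
      Θ.card ≤ 2 ∧ (p ∉ b → Θ.card ≤ 1 ∧
        ((¬ ∃ q ∈ P.vertices, q ≠ p ∧ b = openSegment ℝ p q) → Θ = ∅)) := by
    intro b hb
    obtain ⟨x, hx, y, hy, hxy, rfl⟩ := P.border_eq b hb
    obtain ⟨ρ, Θ, h1, h2, h3, h4⟩ := seg_local hxy p
    refine ⟨ρ, Θ, h1, h2, h3, fun h5 => ⟨(h4 h5).1, fun h6 => (h4 h5).2 ?_ ?_⟩⟩
    · rintro rfl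
      exact h6 ⟨y, hy, Ne.symm hxy, rfl⟩
    · rintro rfl
      exact h6 ⟨x, hx, hxy, openSegment_symm _ _ _⟩
  choose! r T hr hT hT2 hT1 using hb
  have hfin := P.finite_borders p 1
  let F : Finset (Set Plane) := hfin.toFinset
  have hFmem : ∀ b, b ∈ F ↔ b ∈ P.borders ∧ (b ∩ Metric.closedBall p 1).Nonempty := by
    intro b; simp [F]
  obtain ⟨ρ1, hρ1, hρ1'⟩ := exists_min_pos F (f := r) (fun b hb => hr b ((hFmem b).1 hb).1)
  obtain ⟨ρ2, hρ2, hρ2'⟩ : ∃ ρ2 : ℝ, 0 < ρ2 ∧ ∀ v ∈ P.vertices, v ≠ p → dist v p ≤ 1 → ρ2 ≤ dist v p := by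
    have hf := (P.finite_vertices p 1).subset (inter_subset_inter_right _ (le_refl _))
    obtain ⟨r2, h1, h2⟩ := exists_min_pos (hf.toFinset.filter (fun v => v ≠ p)) (f := fun v => dist v p)
      (fun v hv => dist_pos.2 (Finset.mem_filter.1 hv).2)
    refine ⟨r2, h1, fun v hv hvp hd => h2 v ?_⟩
    rw [Finset.mem_filter]
    refine ⟨?_, hvp⟩
    simp only [Set.Finite.mem_toFinset]
    exact ⟨hv, Metric.mem_closedBall.2 hd⟩
  refine ⟨min 1 (min ρ1 ρ2), F.biUnion T, lt_min one_pos (lt_min hρ1 hρ2), ?_, ?_⟩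
  · -- the number of directions
    rcases hp with hp | ⟨b0, hb0, hp⟩
    · have hpb : ∀ b ∈ P.borders, p ∉ b := fun b hb h =>
        disjoint_left.1 (P.vertex_border b hb) hp h
      let F' := F.filter (fun b => T b ≠ ∅)
      have h1 : F.biUnion T ⊆ F'.biUnion T := by
        intro u hu
        obtain ⟨b, hb, hub⟩ := Finset.mem_biUnion.1 hu
        exact Finset.mem_biUnion.2 ⟨b, Finset.mem_filter.2 ⟨hb, fun h => by
          rw [h] at hub; exact Finset.notMem_empty _ hub⟩, hub⟩
      have h2 : (F'.biUnion T).card ≤ F'.card * 1 := Finset.card_biUnion_le_card_mul _ _ _ (by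
        intro b hb
        have hbB := ((hFmem b).1 (Finset.mem_filter.1 hb).1).1
        exact (hT1 b hbB (hpb b hbB)).1)
      have h3 : F'.card ≤ 3 := by
        have h4 : (F' : Set (Set Plane)) ⊆ {b ∈ P.borders | ∃ q ∈ P.vertices, q ≠ p ∧ b = openSegment ℝ p q} := by
          intro b hb
          have hb' := Finset.mem_filter.1 (Finset.mem_coe.1 hb)
          have hbB := ((hFmem b).1 hb'.1).1
          refine ⟨hbB, ?_⟩
          by_contra hcon
          exact hb'.2 ((hT1 b hbB (hpb b hbB)).2 hcon)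
        have h5 := (encard_le_encard h4).trans (hdeg p hp)
        rw [encard_coe_eq_coe_finsetCard] at h5
        exact_mod_cast h5
      exact (Finset.card_le_card h1).trans (h2.trans (by omega))
    · have hpV : p ∉ P.vertices := fun h => disjoint_left.1 (P.vertex_border b0 hb0) h hp
      have h1 : F.biUnion T ⊆ T b0 := by
        intro u hu
        obtain ⟨b, hb, hub⟩ := Finset.mem_biUnion.1 hu
        have hbB := ((hFmem b).1 hb).1
        by_cases hbb : b = b0
        · rw [← hbb]; exact hub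
        · exfalso
          have h2 : p ∉ b := fun h => disjoint_left.1 (P.border_disj b hbB b0 hb0 hbb) h hp
          have h3 : ¬ ∃ q ∈ P.vertices, q ≠ p ∧ b = openSegment ℝ p q := by
            rintro ⟨q, hq, hqp, hbq⟩
            obtain ⟨x, hx, y, hy, hxy, hbxy⟩ := P.border_eq b hbB
            -- the end points of a segment are determined by its closure
            have h4 : segment ℝ p q = segment ℝ x y := by
              rw [← closure_openSegment, ← closure_openSegment, ← hbq, ← hbxy]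
            have h5 : p ∈ segment ℝ x y := by rw [← h4]; exact left_mem_segment ℝ p q
            rw [← insert_endpoints_openSegment] at h5
            rcases h5 with h5 | h5 | h5
            · rw [h5] at hpV; exact hpV hx
            · rw [h5] at hpV; exact hpV hy
            · rw [← hbxy] at h5; exact h2 h5
          rw [(hT1 b hbB h2).2 h3] at hub
          exact Finset.notMem_empty _ hub
      exact (Finset.card_le_card h1).trans ((hT2 b0 hb0).trans (by norm_num))
  · intro s u hs hs' hu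
    have hs1 : s < 1 := lt_of_lt_of_le hs' (min_le_left _ _)
    have hsρ1 : s < ρ1 := lt_of_lt_of_le hs' ((min_le_right _ _).trans (min_le_left _ _))
    have hsρ2 : s < ρ2 := lt_of_lt_of_le hs' ((min_le_right _ _).trans (min_le_right _ _))
    have hdist : dist (p + s • u) p = s := by
      rw [dist_eq_norm, add_sub_cancel_left, norm_smul, hu, mul_one, Real.norm_eq_abs, abs_of_pos hs]
    have hV : p + s • u ∉ P.vertices := by
      intro h
      have h1 := hρ2' _ h (by
        intro h2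
        rw [h2, dist_self] at hdist
        linarith) (by rw [hdist]; exact hs1.le)
      rw [hdist] at h1
      linarith
    have hB : (∃ b ∈ P.borders, p + s • u ∈ b) ↔ u ∈ F.biUnion T := by
      rw [Finset.mem_biUnion]
      constructor
      · rintro ⟨b, hb, hub⟩
        have hbF : b ∈ F := (hFmem b).2 ⟨hb, _, hub, Metric.mem_closedBall.2 (by rw [hdist]; exact hs1.le)⟩
        exact ⟨b, hbF, (hT b hb s u hs (lt_of_lt_of_le hsρ1 (hρ1' b hbF)) hu).1 hub⟩
      · rintro ⟨b, hbF, hub⟩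
        have hb := ((hFmem b).1 hbF).1
        exact ⟨b, hb, (hT b hb s u hs (lt_of_lt_of_le hsρ1 (hρ1' b hbF)) hu).2 hub⟩
    rw [← hB]
    constructor
    · rintro ⟨R, hR, hx⟩ ⟨b, hb, hx'⟩
      exact disjoint_left.1 (P.border_region b hb R hR) hx' hx
    · intro h
      rcases P.cover (p + s • u) with h1 | h1 | h1
      · exact absurd h1 hV
      · exact absurd h1 h
      · exact h1

end Pool.Agent.N466.Poly
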