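import Mathlib

set_option autoImplicit false

namespace Pool.Agent.N466.Poly

open Set

/-- a connected subset of a union of disjoint open sets lies in one of them -/
lemma sub_of_conn {X : Type*} [TopologicalSpace X] {F : Set (Set X)} (hopen : ∀ R ∈ F, IsOpen R)
    (hdisj : ∀ R ∈ F, ∀ R' ∈ F, R ≠ R' → Disjoint R R') {T : Set X} (hT : IsPreconnected T)
    (hTs : T ⊆ ⋃₀ F) {R : Set X} (hR : R ∈ F) (h : (T ∩ R).Nonempty) : T ⊆ R := by
  refine IsPreconnected.subset_left_of_subset_union (v := ⋃₀ (F \ {R})) (hopen R hR)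
    (isOpen_sUnion fun R' hR' => hopen R' hR'.1) ?_ ?_ h hT
  · rw [disjoint_sUnion_right]
    intro R' hR'
    exact hdisj R hR R' hR'.1 (fun h => hR'.2 h.symm)
  · intro x hx
    obtain ⟨R', hR', hx'⟩ := hTs hx
    by_cases h1 : R' = R
    · left; rw [← h1]; exact hx'
    · right; exact ⟨R', ⟨hR', h1⟩, hx'⟩

/-- the unit vector with angle `t` -/
noncomputable def uv (t : ℝ) : ℂ := Complex.exp (t * Complex.I)

lemma uv_cont : Continuous uv := by unfold uv; fun_prop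

lemma uv_ne (t : ℝ) : uv t ≠ 0 := Complex.exp_ne_zero _

lemma norm_uv (t : ℝ) : ‖uv t‖ = 1 := Complex.norm_exp_ofReal_mul_I t

lemma uv_inj {a s t : ℝ} (hs : a < s) (hs' : s < a + 2 * Real.pi) (ht : a < t)
    (ht' : t < a + 2 * Real.pi) (h : uv s = uv t) : s = t := by
  unfold uv at h
  rw [Complex.exp_eq_exp_iff_exists_int] at h
  obtain ⟨n, hn⟩ := h
  have h1 : (s : ℂ) * Complex.I = ((t + n * (2 * Real.pi) : ℝ) : ℂ) * Complex.I := by
    rw [hn]; push_cast; ring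
  have h2 : (s : ℂ) = ((t + n * (2 * Real.pi) : ℝ) : ℂ) := mul_right_cancel₀ Complex.I_ne_zero h1
  have h3 : s = t + n * (2 * Real.pi) := by exact_mod_cast h2
  have hpi := Real.pi_pos
  have h4 : n < 1 := by
    by_contra hcon
    have : (1 : ℝ) ≤ n := by exact_mod_cast not_lt.1 hcon
    nlinarith
  have h5 : -1 < n := by
    by_contra hcon
    have : (n : ℝ) ≤ -1 := by exact_mod_cast not_lt.1 hcon
    nlinarith
  have h6 : n = 0 := by omega
  rw [h3, h6]; simp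

lemma uv_per (t : ℝ) : uv (t + 2 * Real.pi) = uv t := by
  unfold uv
  push_cast
  rw [add_mul, Complex.exp_add, Complex.exp_two_pi_mul_I, mul_one]

variable {F : Set (Set ℂ)} {p : ℂ} {ρ : ℝ} {Θ : Finset ℂ}

lemma sector_conn (hopen : ∀ R ∈ F, IsOpen R) (hdisj : ∀ R ∈ F, ∀ R' ∈ F, R ≠ R' → Disjoint R R')
    (hΘ : ∀ s, 0 < s → s < ρ → ∀ t : ℝ, (p + s * uv t ∈ ⋃₀ F ↔ uv t ∉ Θ)) {J : Set ℝ}
    (hJ : IsPreconnected J) (hJΘ : ∀ t ∈ J, uv t ∉ Θ) {R : Set ℂ} (hR : R ∈ F) {s t : ℝ}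
    (hs : 0 < s) (hs' : s < ρ) (ht : t ∈ J) (hst : p + s * uv t ∈ R) :
    ∀ s' t', 0 < s' → s' < ρ → t' ∈ J → p + s' * uv t' ∈ R := by
  intro s' t' h1 h2 h3
  have hpre : IsPreconnected ((fun q : ℝ × ℝ => p + (q.1 : ℂ) * uv q.2) '' (Ioo 0 ρ ×ˢ J)) := by
    apply (isPreconnected_Ioo.prod hJ).image
    apply Continuous.continuousOn
    have := uv_cont
    fun_prop
  have hsub := sub_of_conn hopen hdisj hpre (by
    rintro _ ⟨q, ⟨hq1, hq2⟩, rfl⟩
    exact (hΘ q.1 hq1.1 hq1.2 q.2).2 (hJΘ _ hq2)) hR ⟨p + s * uv t, ⟨(s, t), ⟨⟨hs, hs'⟩, ht⟩, rfl⟩, hst⟩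
  exact hsub ⟨(s', t'), ⟨⟨h1, h2⟩, h3⟩, rfl⟩

/-- two different tiles that contain the two end rays of a sector with at most one exceptional
ray share that ray -/
lemma local_arc (hopen : ∀ R ∈ F, IsOpen R) (hdisj : ∀ R ∈ F, ∀ R' ∈ F, R ≠ R' → Disjoint R R')
    (hρ : 0 < ρ) (hΘ : ∀ s, 0 < s → s < ρ → ∀ t : ℝ, (p + s * uv t ∈ ⋃₀ F ↔ uv t ∉ Θ))
    {a b : ℝ} (hab : a ≤ b) (hA : {t | a < t ∧ t < b ∧ uv t ∈ Θ}.Subsingleton)
    {R R' : Set ℂ} (hR : R ∈ F) (hR' : R' ∈ F) (hne : R ≠ R') {s s' : ℝ}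
    (hs : 0 < s) (hsρ : s < ρ) (ha : p + s * uv a ∈ R) (hs' : 0 < s') (hsρ' : s' < ρ)
    (hb : p + s' * uv b ∈ R') (hp : p ∈ closure R) (hp' : p ∈ closure R') :
    ∃ q, q ≠ p ∧ segment ℝ p q ⊆ closure R ∩ closure R' := by
  have haΘ : uv a ∉ Θ := (hΘ s hs hsρ a).1 ⟨R, hR, ha⟩
  have hbΘ : uv b ∉ Θ := (hΘ s' hs' hsρ' b).1 ⟨R', hR', hb⟩
  by_cases hex : ∃ t, a < t ∧ t < b ∧ uv t ∈ Θ
  · obtain ⟨t0, h1, h2, h3⟩ := hex
    have hsub1 := sector_conn hopen hdisj hΘ (J := Ico a t0) isPreconnected_Ico (by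
      rintro t ⟨h4, h5⟩ h6
      rcases eq_or_lt_of_le h4 with h7 | h7
      · rw [← h7] at h6; exact haΘ h6
      · have := hA ⟨h7, by linarith, h6⟩ ⟨h1, h2, h3⟩
        linarith) hR hs hsρ ⟨le_refl a, h1⟩ ha
    have hsub2 := sector_conn hopen hdisj hΘ (J := Ioc t0 b) isPreconnected_Ioc (by
      rintro t ⟨h4, h5⟩ h6
      rcases eq_or_lt_of_le h5 with h7 | h7
      · rw [h7] at h6; exact hbΘ h6
      · have := hA ⟨by linarith, h7, h6⟩ ⟨h1, h2, h3⟩
        linarith) hR' hs' hsρ' ⟨h2, le_refl b⟩ hb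
    have hcl : ∀ r : ℝ, 0 < r → r < ρ → p + r * uv t0 ∈ closure R ∩ closure R' := by
      intro r hr hrρ
      have hc : Continuous (fun t : ℝ => p + (r : ℂ) * uv t) := by
        have := uv_cont
        fun_prop
      constructor
      · have h4 : t0 ∈ closure (Ico a t0) := by
          rw [closure_Ico h1.ne]; exact ⟨h1.le, le_rfl⟩
        exact closure_mono (by
          rintro _ ⟨t, ht, rfl⟩
          exact hsub1 r t hr hrρ ht) (image_closure_subset_closure_image hc ⟨t0, h4, rfl⟩)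
      · have h4 : t0 ∈ closure (Ioc t0 b) := by
          rw [closure_Ioc h2.ne]; exact ⟨le_rfl, h2.le⟩
        exact closure_mono (by
          rintro _ ⟨t, ht, rfl⟩
          exact hsub2 r t hr hrρ ht) (image_closure_subset_closure_image hc ⟨t0, h4, rfl⟩)
    refine ⟨p + ((ρ / 2 : ℝ) : ℂ) * uv t0, ?_, ?_⟩
    · intro h
      have h5 : ((ρ / 2 : ℝ) : ℂ) * uv t0 = 0 := by
        have : p + ((ρ / 2 : ℝ) : ℂ) * uv t0 - p = 0 := by rw [h, sub_self]
        simpa using this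
      rcases mul_eq_zero.1 h5 with h6 | h6
      · have : ρ / 2 = 0 := by exact_mod_cast h6
        linarith
      · exact uv_ne _ h6
    · rintro x ⟨c, d, hc, hd, hcd, rfl⟩
      have e : c • p + d • (p + ((ρ / 2 : ℝ) : ℂ) * uv t0) = p + ((d * (ρ / 2) : ℝ) : ℂ) * uv t0 := by
        have hc' : c = 1 - d := by linarith
        rw [hc', Complex.real_smul, Complex.real_smul]
        push_cast
        ring
      rw [e]
      rcases eq_or_lt_of_le hd with h5 | h5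
      · rw [← h5, zero_mul, Complex.ofReal_zero, zero_mul, add_zero]
        exact ⟨hp, hp'⟩
      · have hd1 : d ≤ 1 := by linarith
        exact hcl _ (by positivity) (by nlinarith)
  · exfalso
    have hsub := sector_conn hopen hdisj hΘ (J := Icc a b) isPreconnected_Icc (by
      rintro t ⟨h4, h5⟩ h6
      rcases eq_or_lt_of_le h4 with h7 | h7
      · rw [← h7] at h6; exact haΘ h6
      · rcases eq_or_lt_of_le h5 with h8 | h8
        · rw [h8] at h6; exact hbΘ h6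
        · exact hex ⟨t, h7, h8, h6⟩) hR hs hsρ ⟨le_refl a, hab⟩ ha
    have h1 := hsub s' b hs' hsρ' ⟨hab, le_rfl⟩
    exact disjoint_left.1 (hdisj R hR R' hR' hne) h1 hb

/-- two different tiles that meet at a point with at most three exceptional rays share one of
these rays -/
theorem local_seg (hopen : ∀ R ∈ F, IsOpen R) (hdisj : ∀ R ∈ F, ∀ R' ∈ F, R ≠ R' → Disjoint R R')
    (hρ : 0 < ρ) (hΘ : ∀ s, 0 < s → s < ρ → ∀ t : ℝ, (p + s * uv t ∈ ⋃₀ F ↔ uv t ∉ Θ))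
    (hcard : Θ.card ≤ 3) {R R' : Set ℂ} (hR : R ∈ F) (hR' : R' ∈ F) (hne : R ≠ R')
    (hp : p ∈ closure R) (hp' : p ∈ closure R') :
    ∃ q, q ≠ p ∧ segment ℝ p q ⊆ closure R ∩ closure R' := by
  classical
  -- a point of a tile near `p` in polar form
  have hpol : ∀ A ∈ F, ∀ B ∈ F, A ≠ B → p ∈ closure A → p ∈ closure B →
      ∃ s t : ℝ, 0 < s ∧ s < ρ ∧ p + s * uv t ∈ A := by
    intro A hA B hB hAB h1 h2
    obtain ⟨x, hx, hxA⟩ := mem_closure_iff.1 h1 _ Metric.isOpen_ball (Metric.mem_ball_self hρ)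
    have hpA : p ∉ A := by
      intro h
      obtain ⟨y, hy, hyB⟩ := mem_closure_iff.1 h2 _ (hopen A hA) h
      exact disjoint_left.1 (hdisj A hA B hB hAB) hy hyB
    have hxp : x - p ≠ 0 := by
      intro h
      rw [sub_eq_zero] at h
      rw [h] at hxA
      exact hpA hxA
    refine ⟨‖x - p‖, (x - p).arg, norm_pos_iff.2 hxp, by rwa [Metric.mem_ball, dist_eq_norm] at hx, ?_⟩
    unfold uv
    rw [Complex.norm_mul_exp_arg_mul_I]
    rw [add_sub_cancel]
    exact hxA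
  obtain ⟨s, a, hs, hsρ, ha⟩ := hpol R hR R' hR' hne hp hp'
  obtain ⟨s', b0, hs', hsρ', hb0⟩ := hpol R' hR' R hR (Ne.symm hne) hp' hp
  -- choose the second angle in the right range
  obtain ⟨b, hab, hba, hb⟩ : ∃ b, a < b ∧ b ≤ a + 2 * Real.pi ∧ uv b = uv b0 := by
    have h2pi : 0 < 2 * Real.pi := by linarith [Real.pi_pos]
    refine ⟨toIocMod h2pi a b0, (toIocMod_mem_Ioc h2pi a b0).1, (toIocMod_mem_Ioc h2pi a b0).2, ?_⟩
    have h3 : toIocMod h2pi a b0 = b0 - toIocDiv h2pi a b0 • (2 * Real.pi) := rfl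
    rw [h3]
    unfold uv
    push_cast
    rw [zsmul_eq_mul, sub_mul, Complex.exp_sub]
    have h4 : Complex.exp ((toIocDiv h2pi a b0 : ℂ) * (2 * (Real.pi : ℂ)) * Complex.I) = 1 := by
      rw [mul_assoc]
      exact Complex.exp_int_mul_two_pi_mul_I _
    rw [h4, div_one]
  rw [← hb] at hb0
  by_cases h1 : {t | a < t ∧ t < b ∧ uv t ∈ Θ}.Subsingleton
  · exact local_arc hopen hdisj hρ hΘ hab.le h1 hR hR' hne hs hsρ ha hs' hsρ' hb0 hp hp'
  by_cases h2 : {t | b < t ∧ t < a + 2 * Real.pi ∧ uv t ∈ Θ}.Subsingleton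
  · obtain ⟨q, hq, hq'⟩ := local_arc hopen hdisj hρ hΘ hba h2 hR' hR (Ne.symm hne) hs' hsρ' hb0 hs hsρ
      (by rw [uv_per]; exact ha) hp' hp
    exact ⟨q, hq, fun x hx => ⟨(hq' hx).2, (hq' hx).1⟩⟩
  exfalso
  rw [Set.not_subsingleton_iff] at h1 h2
  obtain ⟨t1, ht1, t2, ht2, h12⟩ := h1
  obtain ⟨t3, ht3, t4, ht4, h34⟩ := h2
  obtain ⟨a1, b1, c1⟩ := ht1
  obtain ⟨a2, b2, c2⟩ := ht2
  obtain ⟨a3, b3, c3⟩ := ht3
  obtain ⟨a4, b4, c4⟩ := ht4
  have hinj : ∀ x y : ℝ, a < x → x < a + 2 * Real.pi → a < y → y < a + 2 * Real.pi → x ≠ y →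
      uv x ≠ uv y := fun x y h1 h2 h3 h4 h5 h6 => h5 (uv_inj h1 h2 h3 h4 h6)
  have n12 := hinj t1 t2 a1 (by linarith) a2 (by linarith) h12
  have n13 := hinj t1 t3 a1 (by linarith) (by linarith) (by linarith) (by intro h; linarith)
  have n14 := hinj t1 t4 a1 (by linarith) (by linarith) (by linarith) (by intro h; linarith)
  have n23 := hinj t2 t3 a2 (by linarith) (by linarith) (by linarith) (by intro h; linarith)
  have n24 := hinj t2 t4 a2 (by linarith) (by linarith) (by linarith) (by intro h; linarith)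
  have n34 := hinj t3 t4 (by linarith) (by linarith) (by linarith) (by linarith) h34
  have h4 : ({uv t1, uv t2, uv t3, uv t4} : Finset ℂ) ⊆ Θ := by
    intro x hx
    simp only [Finset.mem_insert, Finset.mem_singleton] at hx
    rcases hx with rfl | rfl | rfl | rfl <;> assumption
  have h5 := Finset.card_le_card h4
  have h6 : ({uv t1, uv t2, uv t3, uv t4} : Finset ℂ).card = 4 := by
    rw [Finset.card_insert_of_notMem, Finset.card_insert_of_notMem, Finset.card_insert_of_notMem,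
      Finset.card_singleton]
    · simpa using n34
    · simp [n23, n24]
    · simp [n12, n13, n14]
  omega

end Pool.Agent.N466.Poly
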