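import Pool.Agent.N466.Pl.Closed
import Pool.Agent.N466.Pl.Bricks

set_option autoImplicit false

namespace Pool.Agent.N466.Poly

open Set Pool.Agent.N466.Pl

lemma closure_le {A B : Set ℂ} (h : ∀ x ∈ A, ∀ y ∈ B, ‖x - y‖ ≤ 1) :
    ∀ x ∈ closure A, ∀ y ∈ closure B, ‖x - y‖ ≤ 1 := by
  intro x hx y hy
  have h1 : A ×ˢ B ⊆ {p : ℂ × ℂ | ‖p.1 - p.2‖ ≤ 1} := fun p hp => h _ hp.1 _ hp.2
  have h2 : IsClosed {p : ℂ × ℂ | ‖p.1 - p.2‖ ≤ 1} := isClosed_le (by fun_prop) continuous_const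
  have h3 : (x, y) ∈ closure (A ×ˢ B) := by rw [closure_prod_eq]; exact ⟨hx, hy⟩
  exact closure_minimal h1 h2 h3

lemma closure_ge {A B : Set ℂ} (h : ∀ x ∈ A, ∀ y ∈ B, 1 ≤ ‖x - y‖) :
    ∀ x ∈ closure A, ∀ y ∈ closure B, 1 ≤ ‖x - y‖ := by
  intro x hx y hy
  have h1 : A ×ˢ B ⊆ {p : ℂ × ℂ | 1 ≤ ‖p.1 - p.2‖} := fun p hp => h _ hp.1 _ hp.2
  have h2 : IsClosed {p : ℂ × ℂ | 1 ≤ ‖p.1 - p.2‖} := isClosed_le continuous_const (by fun_prop)
  have h3 : (x, y) ∈ closure (A ×ˢ B) := by rw [closure_prod_eq]; exact ⟨hx, hy⟩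
  exact closure_minimal h1 h2 h3

/-- two connected sets without unit distance are near or far -/
lemma near_or_far {A B : Set ℂ} (hA : IsPreconnected A) (hB : IsPreconnected B)
    (h : ∀ x ∈ A, ∀ y ∈ B, ‖x - y‖ ≠ 1) :
    (∀ x ∈ A, ∀ y ∈ B, ‖x - y‖ < 1) ∨ (∀ x ∈ A, ∀ y ∈ B, 1 < ‖x - y‖) := by
  by_contra hcon
  push Not at hcon
  obtain ⟨⟨x, hx, y, hy, h1⟩, ⟨x', hx', y', hy', h2⟩⟩ := hcon
  have hpre : IsPreconnected (A ×ˢ B) := hA.prod hB
  have h3 := hpre.intermediate_value (f := fun p : ℂ × ℂ => ‖p.1 - p.2‖) (a := (x', y')) (b := (x, y))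
    ⟨hx', hy'⟩ ⟨hx, hy⟩ (by apply Continuous.continuousOn; fun_prop)
  obtain ⟨p, hp, hp1⟩ := h3 ⟨h2, h1⟩
  exact h _ hp.1 _ hp.2 hp1

/-- a unit circle does not contain a segment -/
lemma seg_circle {p q w : ℂ} (hpq : q ≠ p) (h : ∀ x ∈ segment ℝ p q, ‖x - w‖ = 1) : False := by
  have h0 := h p (left_mem_segment ℝ p q)
  have h1 := h q (right_mem_segment ℝ p q)
  have h2 := h ((1 / 2 : ℝ) • p + (1 / 2 : ℝ) • q)
    ⟨1 / 2, 1 / 2, by norm_num, by norm_num, by norm_num, rfl⟩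
  have e0 := sq_dist p w
  have e1 := sq_dist q w
  have e2 := sq_dist ((1 / 2 : ℝ) • p + (1 / 2 : ℝ) • q) w
  have e3 := sq_dist p q
  rw [h0] at e0
  rw [h1] at e1
  rw [h2] at e2
  simp only [Complex.add_re, Complex.smul_re, Complex.add_im, Complex.smul_im, smul_eq_mul] at e2
  have h4 : 0 < ‖p - q‖ := norm_pos_iff.2 (sub_ne_zero.2 (Ne.symm hpq))
  have h5 : 0 < ‖p - q‖ ^ 2 := by positivity
  nlinarith

variable {ι : Type*} {R : ι → Set ℂ}

/-- closures of different tiles that do not meet are at a positive distance on bounded parts -/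
lemma exists_leb (hlf : ∀ n : ℕ, {i | (R i ∩ Metric.ball 0 (n : ℝ)).Nonempty}.Finite) (n : ℕ) :
    ∃ ε : ℝ, 0 < ε ∧ ∀ i j, ∀ v ∈ closure (R i), ∀ w ∈ closure (R j), ‖v‖ ≤ n → ‖w‖ ≤ n →
      ‖v - w‖ < ε → (closure (R i) ∩ closure (R j)).Nonempty := by
  classical
  let I : Set ι := {i | (R i ∩ Metric.ball 0 ((n + 1 : ℕ) : ℝ)).Nonempty}
  have hI : I.Finite := hlf (n + 1)
  have hmemI : ∀ i, ∀ v ∈ closure (R i), ‖v‖ ≤ n → i ∈ I := by
    intro i v hv hvn
    have h1 : v ∈ Metric.ball (0 : ℂ) ((n + 1 : ℕ) : ℝ) := by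
      rw [Metric.mem_ball, dist_zero_right]; push_cast; linarith
    have h2 := mem_closure_iff.1 hv _ Metric.isOpen_ball h1
    rwa [inter_comm] at h2
  let J : Set (ι × ι) := {p | p.1 ∈ I ∧ p.2 ∈ I ∧ ¬ (closure (R p.1) ∩ closure (R p.2)).Nonempty}
  have hJ : J.Finite := (hI.prod hI).subset (fun p hp => ⟨hp.1, hp.2.1⟩)
  let K : Set (ℂ × ℂ) := ⋃ p ∈ J, (closure (R p.1) ∩ Metric.closedBall 0 (n : ℝ)) ×ˢ
    (closure (R p.2) ∩ Metric.closedBall 0 (n : ℝ))
  have hK : IsCompact K := by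
    apply hJ.isCompact_biUnion
    intro p _
    exact ((isCompact_closedBall (0 : ℂ) (n : ℝ)).inter_left isClosed_closure).prod
      ((isCompact_closedBall (0 : ℂ) (n : ℝ)).inter_left isClosed_closure)
  have hmem : ∀ i j, ∀ v ∈ closure (R i), ∀ w ∈ closure (R j), ‖v‖ ≤ n → ‖w‖ ≤ n →
      ¬ (closure (R i) ∩ closure (R j)).Nonempty → (v, w) ∈ K := by
    intro i j v hv w hw h1 h2 h3
    refine mem_iUnion₂.2 ⟨(i, j), ⟨hmemI i v hv h1, hmemI j w hw h2, h3⟩, ?_⟩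
    exact ⟨⟨hv, by simpa using h1⟩, ⟨hw, by simpa using h2⟩⟩
  rcases K.eq_empty_or_nonempty with hne | hne
  · refine ⟨1, one_pos, fun i j v hv w hw h1 h2 _ => ?_⟩
    by_contra h3
    have := hmem i j v hv w hw h1 h2 h3
    rw [hne] at this
    exact absurd this (notMem_empty _)
  · obtain ⟨p, hp, hmin⟩ := hK.exists_isMinOn hne (f := fun p : ℂ × ℂ => ‖p.1 - p.2‖)
      (by apply Continuous.continuousOn; fun_prop)
    refine ⟨‖p.1 - p.2‖, ?_, fun i j v hv w hw h1 h2 h4 => ?_⟩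
    · obtain ⟨q, hq, hp1, hp2⟩ := mem_iUnion₂.1 hp
      rw [norm_pos_iff, sub_ne_zero]
      intro h
      apply hq.2.2
      refine ⟨p.1, hp1.1, ?_⟩
      rw [h]; exact hp2.1
    · by_contra h3
      have := hmin (hmem i j v hv w hw h1 h2 h3)
      have h5 : ‖p.1 - p.2‖ ≤ ‖v - w‖ := this
      linarith

/-- a locally finite tiling by connected tiles, where tiles of the same colour do not touch and have
no unit distance, and tiles that touch do so along a segment, needs seven colours -/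
theorem tiling_six (col : ι → Fin 6) (hconn : ∀ i, IsPreconnected (R i)) (hne : ∀ i, (R i).Nonempty)
    (hdist : ∀ i j, col i = col j → ∀ x ∈ R i, ∀ y ∈ R j, ‖x - y‖ ≠ 1)
    (hcov : ∀ v, ∃ i, v ∈ closure (R i))
    (hlf : ∀ n : ℕ, {i | (R i ∩ Metric.ball 0 (n : ℝ)).Nonempty}.Finite)
    (hcol : ∀ i j, i ≠ j → (closure (R i) ∩ closure (R j)).Nonempty → col i ≠ col j)
    (hseg : ∀ i j, i ≠ j → ∀ p ∈ closure (R i) ∩ closure (R j),
      ∃ q, q ≠ p ∧ segment ℝ p q ⊆ closure (R i) ∩ closure (R j)) : False := by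
  classical
  choose r hr using hcov
  choose ε hε hleb using exists_leb hlf
  let δ := runmin ε
  have hδ : ∀ n, 0 < δ n := runmin_pos hε
  let τ : ℝ → ℝ := fun s => min (1 / 20) (δ ⌈s⌉₊)
  have hτ : Scale τ := by
    refine ⟨fun s => lt_min (by norm_num) (hδ _), ?_, fun s => min_le_left _ _⟩
    intro s t hst
    exact min_le_min le_rfl (runmin_anti ε (Nat.ceil_mono hst))
  have hadj : ∀ v v', Adj τ v v' → (closure (R (r v)) ∩ closure (R (r v'))).Nonempty := by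
    intro v v' h
    have h1 : max ‖v‖ ‖v'‖ ≤ (⌈max ‖v‖ ‖v'‖⌉₊ : ℝ) := Nat.le_ceil _
    apply hleb ⌈max ‖v‖ ‖v'‖⌉₊ _ _ v (hr v) v' (hr v') ((le_max_left _ _).trans h1)
      ((le_max_right _ _).trans h1)
    exact lt_of_lt_of_le h ((min_le_right _ _).trans (runmin_le _ _))
  have hnf : ∀ i j, col i = col j → (∀ x ∈ R i, ∀ y ∈ R j, ‖x - y‖ < 1) ∨
      (∀ x ∈ R i, ∀ y ∈ R j, 1 < ‖x - y‖) := fun i j hij =>
    near_or_far (hconn i) (hconn j) (hdist i j hij)
  refine no_six hτ (fun v => col (r v)) (fun v w => ∀ x ∈ R (r v), ∀ y ∈ R (r w), ‖x - y‖ < 1)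
    ?_ ?_ ?_ ?_
  · intro v
    rcases hnf (r v) (r v) rfl with h | h
    · exact h
    · obtain ⟨x, hx⟩ := hne (r v)
      have := h x hx x hx
      rw [sub_self, norm_zero] at this
      linarith
  · intro v w v' w' h1 h2 h3 h4 h5
    by_cases hv : r v = r v'
    · -- the second pair of tiles coincides too
      have hw : r w = r w' := by
        by_contra hw
        apply hcol _ _ hw (hadj w w' h4)
        rw [← h1, ← h2, hv]
      rw [← hv, ← hw]
      exact h5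
    · have hw : r w ≠ r w' := by
        intro hw
        apply hcol _ _ hv (hadj v v' h3)
        rw [h1, h2, hw]
      rcases hnf (r v') (r w') h2 with h | h
      · exact h
      · exfalso
        obtain ⟨p, hp⟩ := hadj v v' h3
        obtain ⟨p', hp'⟩ := hadj w w' h4
        obtain ⟨q, hq, hseg'⟩ := hseg _ _ hv p hp
        apply seg_circle hq (w := p')
        intro x hx
        have hx' := hseg' hx
        apply le_antisymm
        · exact closure_le (fun a ha b hb => (h5 a ha b hb).le) x hx'.1 p' hp'.1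
        · exact closure_ge (fun a ha b hb => (h a ha b hb).le) x hx'.2 p' hp'.2
  · intro v w _ h
    exact closure_le (fun a ha b hb => (h a ha b hb).le) v (hr v) w (hr w)
  · intro v w h1 h
    rcases hnf (r v) (r w) h1 with h2 | h2
    · exact absurd h2 h
    · exact closure_ge (fun a ha b hb => (h2 a ha b hb).le) v (hr v) w (hr w)

end Pool.Agent.N466.Poly
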