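import Pool.Agent.N466.Poly.LS
import Pool.Agent.N466.Poly.Local
import Pool.Agent.N466.Poly.Tiling

set_option autoImplicit false

namespace Pool.Agent.N466.Poly

open Set

/-- a polygon colouring with all degrees at most three has at least seven colours -/
theorem poly_lower {k : ℕ} (hk : k < 7) (P : PolygonColoring (Fin k))
    (hdeg : ∀ p ∈ P.vertices, P.degree p ≤ 3) : False := by
  classical
  let e : ℂ ≃ₗᵢ[ℝ] Plane := Complex.orthonormalBasisOneI.repr
  have hclos : ∀ A : Set Plane, e ⁻¹' (closure A) = closure (e ⁻¹' A) := fun A =>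
    e.toHomeomorph.preimage_closure A
  let F : Set (Set ℂ) := {A | ∃ B ∈ P.regions, A = e ⁻¹' B}
  have hFopen : ∀ A ∈ F, IsOpen A := by
    rintro A ⟨B, hB, rfl⟩
    exact (P.region_open B hB).preimage e.continuous
  have hpre_inj : ∀ B B' : Set Plane, e ⁻¹' B = e ⁻¹' B' → B = B' := fun B B' h =>
    e.surjective.preimage_injective h
  have hFdisj : ∀ A ∈ F, ∀ A' ∈ F, A ≠ A' → Disjoint A A' := by
    rintro A ⟨B, hB, rfl⟩ A' ⟨B', hB', rfl⟩ hne
    exact (P.region_disj B hB B' hB' (fun h => hne (by rw [h]))).preimage e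
  -- the local structure in the complex plane
  have hloc : ∀ p : ℂ, (e p ∈ P.vertices ∨ ∃ b ∈ P.borders, e p ∈ b) → ∃ (ρ : ℝ) (Θ : Finset ℂ),
      0 < ρ ∧ Θ.card ≤ 3 ∧ ∀ s, 0 < s → s < ρ → ∀ t : ℝ, (p + s * uv t ∈ ⋃₀ F ↔ uv t ∉ Θ) := by
    intro p hp
    obtain ⟨ρ, Θ, hρ, hΘ, h⟩ := local_structure P hdeg hp
    refine ⟨ρ, Θ.image e.symm, hρ, Finset.card_image_le.trans hΘ, ?_⟩
    intro s hs hs' t
    have h1 := h s (e (uv t)) hs hs' (by rw [e.norm_map, norm_uv])
    have e1 : e p + s • e (uv t) = e (p + s * uv t) := by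
      rw [map_add, ← map_smul, Complex.real_smul]
    rw [e1] at h1
    have e2 : (p + s * uv t ∈ ⋃₀ F) ↔ ∃ R ∈ P.regions, e (p + s * uv t) ∈ R := by
      constructor
      · rintro ⟨A, ⟨B, hB, rfl⟩, hx⟩
        exact ⟨B, hB, hx⟩
      · rintro ⟨B, hB, hx⟩
        exact ⟨e ⁻¹' B, ⟨B, hB, rfl⟩, hx⟩
    have e3 : uv t ∈ Θ.image e.symm ↔ e (uv t) ∈ Θ := by
      rw [Finset.mem_image]
      constructor
      · rintro ⟨u, hu, hut⟩
        rw [← hut, e.apply_symm_apply]; exact hu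
      · intro hu
        exact ⟨e (uv t), hu, e.symm_apply_apply _⟩
    rw [e2, e3]
    exact h1
  -- a point in two closures of different regions is on the frontier of both
  have hfr : ∀ B ∈ P.regions, ∀ B' ∈ P.regions, B ≠ B' → ∀ x, x ∈ closure B → x ∈ closure B' →
      x ∈ frontier B := by
    intro B hB B' hB' hne x hx hx'
    rw [(P.region_open B hB).frontier_eq]
    refine ⟨hx, fun h => ?_⟩
    obtain ⟨y, hy, hy'⟩ := mem_closure_iff.1 hx' _ (P.region_open B hB) h
    exact disjoint_left.1 (P.region_disj B hB B' hB' hne) hy hy'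
  have hvb : ∀ B ∈ P.regions, ∀ x ∈ frontier B, x ∈ P.vertices ∨ ∃ b ∈ P.borders, x ∈ b := by
    intro B hB x hx
    rcases P.region_frontier B hB x hx with h | ⟨b, hb, hxb, _⟩
    · exact Or.inl h
    · exact Or.inr ⟨b, hb, hxb⟩
  have hnonempty : ∀ B ∈ P.regions, B.Nonempty := fun B hB => (P.region_conn B hB).nonempty
  let pt : P.regions → Plane := fun i => (hnonempty i.1 i.2).some
  have hpt : ∀ i, pt i ∈ i.1 := fun i => (hnonempty i.1 i.2).some_mem
  have hk6 : k ≤ 6 := by omega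
  refine tiling_six (ι := P.regions) (R := fun i => e ⁻¹' i.1)
    (fun i => Fin.castLE hk6 (P.color (pt i))) ?_ ?_ ?_ ?_ ?_ ?_ ?_
  · intro i
    have h1 := (P.region_conn i.1 i.2).isPreconnected
    have h2 : e ⁻¹' i.1 = e.symm '' i.1 := by
      ext x
      constructor
      · intro hx
        exact ⟨e x, hx, e.symm_apply_apply x⟩
      · rintro ⟨y, hy, rfl⟩
        show e (e.symm y) ∈ i.1
        rw [e.apply_symm_apply]
        exact hy
    rw [h2]
    exact h1.image _ e.symm.continuous.continuousOn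
  · intro i
    obtain ⟨x, hx⟩ := hnonempty i.1 i.2
    exact ⟨e.symm x, by show e (e.symm x) ∈ i.1; rw [e.apply_symm_apply]; exact hx⟩
  · intro i j hij x hx y hy hxy
    have h1 : P.color (pt i) = P.color (pt j) := Fin.castLE_injective hk6 hij
    have h2 := P.color_const i.1 i.2 _ (hpt i) _ hx
    have h3 := P.color_const j.1 j.2 _ (hpt j) _ hy
    apply P.unit_ne (e x) (e y) (by rw [e.dist_map, dist_eq_norm]; exact hxy)
    rw [← h2, ← h3, h1]
  · intro v
    rcases P.cover (e v) with h | h | ⟨R, hR, hx⟩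
    rotate_left 2
    · exact ⟨⟨R, hR⟩, subset_closure hx⟩
    all_goals
      obtain ⟨ρ, Θ, hρ, _, hΘ⟩ := hloc v (by first | exact Or.inl h | exact Or.inr h)
      obtain ⟨t, ht⟩ : ∃ t : ℝ, uv t ∉ Θ := by
        have h1 : (uv '' Ioo 0 (0 + 2 * Real.pi)).Infinite := by
          apply Set.Infinite.image
          · intro s hs t ht h
            exact uv_inj hs.1 hs.2 ht.1 ht.2 h
          · exact Set.Ioo_infinite (by linarith [Real.pi_pos])
        obtain ⟨_, ⟨t, _, rfl⟩, ht⟩ := h1.exists_notMem_finset Θ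
        exact ⟨t, ht⟩
      obtain ⟨A, ⟨B, hB, rfl⟩, hA⟩ := (hΘ (ρ / 2) (by positivity) (by linarith) t).2 ht
      have h2 := sector_conn hFopen hFdisj hΘ (J := {t}) isPreconnected_singleton
        (by rintro t' rfl; exact ht) ⟨B, hB, rfl⟩ (s := ρ / 2) (by positivity) (by linarith) rfl hA
      refine ⟨⟨B, hB⟩, ?_⟩
      have hc : Continuous (fun s : ℝ => v + (s : ℂ) * uv t) := by fun_prop
      have h3 : (0 : ℝ) ∈ closure (Ioo 0 ρ) := by
        rw [closure_Ioo hρ.ne]; exact ⟨le_rfl, hρ.le⟩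
      have h4 := image_closure_subset_closure_image hc ⟨0, h3, rfl⟩
      simp only [Complex.ofReal_zero, zero_mul, add_zero] at h4
      refine closure_mono ?_ h4
      rintro _ ⟨s, hs, rfl⟩
      exact h2 s t hs.1 hs.2 rfl
  · intro n
    have h1 := P.finite_regions 0 n
    refine Set.Finite.of_injOn (f := fun i : P.regions => i.1) ?_ (Subtype.val_injective.injOn) h1
    rintro i ⟨x, hx, hx'⟩
    refine ⟨i.2, e x, hx, ?_⟩
    rw [Metric.mem_closedBall, dist_zero_right, e.norm_map]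
    rw [Metric.mem_ball, dist_zero_right] at hx'
    exact hx'.le
  · rintro i j hij ⟨x, hx, hx'⟩ h
    have hne : i.1 ≠ j.1 := fun h => hij (Subtype.ext h)
    rw [← hclos] at hx hx'
    have f1 := hfr i.1 i.2 j.1 j.2 hne (e x) hx hx'
    have f2 := hfr j.1 j.2 i.1 i.2 hne.symm (e x) hx' hx
    have h1 : P.color (pt i) = P.color (pt j) := Fin.castLE_injective hk6 h
    refine P.color_ne i.1 i.2 j.1 j.2 hne ?_ _ (hpt i) _ (hpt j) h1
    rcases P.region_frontier i.1 i.2 _ f1 with h2 | ⟨b, hb, hxb, hbf⟩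
    · exact Or.inl ⟨_, h2, f1, f2⟩
    · rcases P.region_frontier j.1 j.2 _ f2 with h3 | ⟨b', hb', hxb', hbf'⟩
      · exact absurd hxb (disjoint_left.1 (P.vertex_border b hb) h3)
      · have hbb : b = b' := by
          by_contra hcon
          exact disjoint_left.1 (P.border_disj b hb b' hb' hcon) hxb hxb'
        rw [← hbb] at hbf'
        exact Or.inr ⟨b, hb, hbf, hbf'⟩
  · rintro i j hij p ⟨hp, hp'⟩
    have hne : i.1 ≠ j.1 := fun h => hij (Subtype.ext h)
    have hp1 := hp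
    have hp1' := hp'
    rw [← hclos] at hp1 hp1'
    have f1 := hfr i.1 i.2 j.1 j.2 hne (e p) hp1 hp1'
    obtain ⟨ρ, Θ, hρ, hcard, hΘ⟩ := hloc p (hvb i.1 i.2 _ f1)
    exact local_seg hFopen hFdisj hρ hΘ hcard ⟨i.1, i.2, rfl⟩ ⟨j.1, j.2, rfl⟩
      (fun h => hne (hpre_inj _ _ h)) hp hp'

end Pool.Agent.N466.Poly
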