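import Pool.Agent.N466.Poly.Defs
import Pool.Agent.N466.Pl.Bricks

set_option autoImplicit false

namespace Pool.Agent.N466.Poly

open Set

/-- the scaled coordinates -/
noncomputable def cu (x : Plane) : ℝ := x 0 / (18 / 25)

noncomputable def ct (x : Plane) : ℝ := x 1 / (3 / 5)

/-- the point with given scaled coordinates -/
noncomputable def mk (u t : ℝ) : Plane := !₂[u * (18 / 25), t * (3 / 5)]

lemma cu_mk (u t : ℝ) : cu (mk u t) = u := by
  simp [cu, mk]

lemma ct_mk (u t : ℝ) : ct (mk u t) = t := by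
  simp [ct, mk]

lemma plane_ext {x y : Plane} (h0 : cu x = cu y) (h1 : ct x = ct y) : x = y := by
  unfold cu at h0
  unfold ct at h1
  have e0 : x 0 = y 0 := by
    have := congrArg (fun z : ℝ => z * (18 / 25)) h0
    simp only at this
    linarith
  have e1 : x 1 = y 1 := by
    have := congrArg (fun z : ℝ => z * (3 / 5)) h1
    simp only at this
    linarith
  ext i
  fin_cases i
  · exact e0
  · exact e1

lemma cu_add_smul (s t : ℝ) (x y : Plane) : cu (s • x + t • y) = s * cu x + t * cu y := by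
  simp only [cu, PiLp.add_apply, PiLp.smul_apply, smul_eq_mul]
  ring

lemma ct_add_smul (s t : ℝ) (x y : Plane) : ct (s • x + t • y) = s * ct x + t * ct y := by
  simp only [ct, PiLp.add_apply, PiLp.smul_apply, smul_eq_mul]
  ring

lemma cont_cu : Continuous cu := by
  unfold cu
  fun_prop

lemma cont_ct : Continuous ct := by
  unfold ct
  fun_prop

/-- the horizontal offset of a point in the row `r` relative to the column `n` -/
noncomputable def off (n r : ℤ) (x : Plane) : ℝ := cu x - 12 / 5 * r - n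

/-- the points of row part `J` and column part `K` -/
def cell (J K : Set ℝ) (n r : ℤ) : Set Plane := {x | ct x - r ∈ J ∧ off n r x ∈ K}

lemma int_eq {r r' : ℤ} (h : (r : ℝ) < r' + 1) (h' : (r' : ℝ) < r + 1) : r = r' := by
  have h1 : r < r' + 1 := by exact_mod_cast h
  have h2 : r' < r + 1 := by exact_mod_cast h'
  omega

lemma cell_unique {J K J' K' : Set ℝ} (hJ : J ⊆ Ico 0 1) (hK : K ⊆ Ico 0 1) (hJ' : J' ⊆ Ico 0 1)
    (hK' : K' ⊆ Ico 0 1) {n r n' r' : ℤ} {x : Plane} (h : x ∈ cell J K n r)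
    (h' : x ∈ cell J' K' n' r') : n = n' ∧ r = r' := by
  have h1 := hJ h.1
  have h2 := hJ' h'.1
  have hr : r = r' := int_eq (by linarith [h1.1, h2.2]) (by linarith [h1.2, h2.1])
  subst hr
  have h3 := hK h.2
  have h4 := hK' h'.2
  unfold off at h3 h4
  exact ⟨int_eq (by linarith [h3.1, h4.2]) (by linarith [h3.2, h4.1]), rfl⟩

/-- vertices -/
noncomputable def vA (n r : ℤ) : Plane := mk (n + 12 / 5 * r) r
noncomputable def vB (n r : ℤ) : Plane := mk (n + 3 / 5 + 12 / 5 * r) r

lemma vA_cell (n r : ℤ) (x : Plane) : x = vA n r ↔ x ∈ cell {0} {0} n r := by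
  unfold cell vA off
  constructor
  · rintro rfl
    simp only [mem_ofPred_eq, cu_mk, ct_mk, mem_singleton_iff]
    constructor <;> ring
  · rintro ⟨h1, h2⟩
    rw [mem_singleton_iff] at h1 h2
    apply plane_ext
    · rw [cu_mk]; linarith
    · rw [ct_mk]; linarith

lemma vB_cell (n r : ℤ) (x : Plane) : x = vB n r ↔ x ∈ cell {0} {3 / 5} n r := by
  unfold cell vB off
  constructor
  · rintro rfl
    simp only [mem_ofPred_eq, cu_mk, ct_mk, mem_singleton_iff]
    constructor <;> ring
  · rintro ⟨h1, h2⟩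
    rw [mem_singleton_iff] at h1 h2
    apply plane_ext
    · rw [cu_mk]; linarith
    · rw [ct_mk]; linarith

/-- a horizontal open segment -/
lemma hseg_mem {u u' t : ℝ} (h : u < u') (x : Plane) :
    x ∈ openSegment ℝ (mk u t) (mk u' t) ↔ ct x = t ∧ u < cu x ∧ cu x < u' := by
  constructor
  · rintro ⟨a, b, ha, hb, hab, rfl⟩
    rw [cu_add_smul, ct_add_smul, cu_mk, cu_mk, ct_mk, ct_mk]
    have ha' : a = 1 - b := by linarith
    subst ha'
    refine ⟨by ring, by nlinarith, by nlinarith⟩
  · rintro ⟨h1, h2, h3⟩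
    have hd : 0 < u' - u := by linarith
    refine ⟨(u' - cu x) / (u' - u), (cu x - u) / (u' - u), div_pos (by linarith) hd,
      div_pos (by linarith) hd, by field_simp; ring, ?_⟩
    apply plane_ext
    · rw [cu_add_smul, cu_mk, cu_mk]; field_simp; ring
    · rw [ct_add_smul, ct_mk, ct_mk, h1]; field_simp; ring

/-- a vertical open segment -/
lemma vseg_mem {u t t' : ℝ} (h : t < t') (x : Plane) :
    x ∈ openSegment ℝ (mk u t) (mk u t') ↔ cu x = u ∧ t < ct x ∧ ct x < t' := by
  constructor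
  · rintro ⟨a, b, ha, hb, hab, rfl⟩
    rw [cu_add_smul, ct_add_smul, cu_mk, cu_mk, ct_mk, ct_mk]
    have ha' : a = 1 - b := by linarith
    subst ha'
    refine ⟨by ring, by nlinarith, by nlinarith⟩
  · rintro ⟨h1, h2, h3⟩
    have hd : 0 < t' - t := by linarith
    refine ⟨(t' - ct x) / (t' - t), (ct x - t) / (t' - t), div_pos (by linarith) hd,
      div_pos (by linarith) hd, by field_simp; ring, ?_⟩
    apply plane_ext
    · rw [cu_add_smul, cu_mk, cu_mk, h1]; field_simp; ring
    · rw [ct_add_smul, ct_mk, ct_mk]; field_simp; ring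

/-- borders -/
noncomputable def bH (n r : ℤ) : Set Plane := openSegment ℝ (vA n r) (vB n r)
noncomputable def bG (n r : ℤ) : Set Plane := openSegment ℝ (vB n r) (vA (n + 1) r)
noncomputable def bV (n r : ℤ) : Set Plane := openSegment ℝ (vA n r) (vB (n - 3) (r + 1))

lemma bH_cell (n r : ℤ) : bH n r = cell {0} (Ioo 0 (3 / 5)) n r := by
  ext x
  unfold bH vA vB
  rw [hseg_mem (by linarith)]
  unfold cell off
  simp only [mem_ofPred_eq, mem_singleton_iff, mem_Ioo]
  constructor
  · rintro ⟨h1, h2, h3⟩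
    exact ⟨by linarith, by linarith, by linarith⟩
  · rintro ⟨h1, h2, h3⟩
    exact ⟨by linarith, by linarith, by linarith⟩

lemma bG_cell (n r : ℤ) : bG n r = cell {0} (Ioo (3 / 5) 1) n r := by
  ext x
  unfold bG vA vB
  push_cast
  rw [hseg_mem (by linarith)]
  unfold cell off
  simp only [mem_ofPred_eq, mem_singleton_iff, mem_Ioo]
  constructor
  · rintro ⟨h1, h2, h3⟩
    exact ⟨by linarith, by linarith, by linarith⟩
  · rintro ⟨h1, h2, h3⟩
    exact ⟨by linarith, by linarith, by linarith⟩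

lemma bV_cell (n r : ℤ) : bV n r = cell (Ioo 0 1) {0} n r := by
  ext x
  unfold bV vA vB
  push_cast
  have e : (n : ℝ) - 3 + 3 / 5 + 12 / 5 * (r + 1) = n + 12 / 5 * r := by ring
  rw [e, vseg_mem (by linarith)]
  unfold cell off
  simp only [mem_ofPred_eq, mem_singleton_iff, mem_Ioo]
  constructor
  · rintro ⟨h1, h2, h3⟩
    exact ⟨⟨by linarith, by linarith⟩, by linarith⟩
  · rintro ⟨⟨h1, h2⟩, h3⟩
    exact ⟨by linarith, by linarith, by linarith⟩

/-- regions -/
noncomputable def reg (n r : ℤ) : Set Plane := cell (Ioo 0 1) (Ioo 0 1) n r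

/-- closed bricks -/
noncomputable def creg (n r : ℤ) : Set Plane := cell (Icc 0 1) (Icc 0 1) n r

lemma cont_off (n r : ℤ) : Continuous (off n r) := by
  unfold off
  have := cont_cu
  fun_prop

lemma reg_open (n r : ℤ) : IsOpen (reg n r) := by
  have h1 : Continuous (fun x : Plane => ct x - r) := cont_ct.sub continuous_const
  exact (isOpen_Ioo.preimage h1).inter (isOpen_Ioo.preimage (cont_off n r))

lemma creg_closed (n r : ℤ) : IsClosed (creg n r) := by
  have h1 : Continuous (fun x : Plane => ct x - r) := cont_ct.sub continuous_const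
  exact (isClosed_Icc.preimage h1).inter (isClosed_Icc.preimage (cont_off n r))

lemma reg_sub_creg (n r : ℤ) : reg n r ⊆ creg n r :=
  fun _ h => ⟨Ioo_subset_Icc_self h.1, Ioo_subset_Icc_self h.2⟩

lemma reg_convex (n r : ℤ) : Convex ℝ (reg n r) := by
  rintro x ⟨⟨h1, h2⟩, h3, h4⟩ y ⟨⟨h5, h6⟩, h7, h8⟩ a b ha hb hab
  unfold off at h3 h4 h7 h8
  have key : ∀ c p q : ℝ, c < p → c < q → c < a * p + b * q := by
    intro c p q hp hq
    rcases eq_or_lt_of_le ha with h | h
    · have hb1 : b = 1 := by linarith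
      rw [← h, hb1]; linarith
    · have h9 : a * (p - c) + b * (q - c) = a * p + b * q - c := by
        have : b = 1 - a := by linarith
        rw [this]; ring
      have h10 : 0 < a * (p - c) := mul_pos h (by linarith)
      have h11 : 0 ≤ b * (q - c) := mul_nonneg hb (by linarith)
      linarith
  have key' : ∀ c p q : ℝ, p < c → q < c → a * p + b * q < c := by
    intro c p q hp hq
    have := key (-c) (-p) (-q) (by linarith) (by linarith)
    linarith
  unfold reg cell off
  simp only [mem_ofPred_eq, mem_Ioo]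
  rw [cu_add_smul, ct_add_smul]
  have k1 := key r (ct x) (ct y) (by linarith) (by linarith)
  have k2 := key' (r + 1) (ct x) (ct y) (by linarith) (by linarith)
  have k3 := key (12 / 5 * r + n) (cu x) (cu y) (by linarith) (by linarith)
  have k4 := key' (12 / 5 * r + n + 1) (cu x) (cu y) (by linarith) (by linarith)
  exact ⟨⟨by linarith, by linarith⟩, by linarith, by linarith⟩

lemma reg_center (n r : ℤ) : mk (12 / 5 * r + n + 1 / 2) (r + 1 / 2) ∈ reg n r := by
  unfold reg cell off
  simp only [mem_ofPred_eq, mem_Ioo, cu_mk, ct_mk]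
  exact ⟨⟨by linarith, by linarith⟩, by linarith, by linarith⟩

lemma creg_closure (n r : ℤ) : creg n r ⊆ closure (reg n r) := by
  intro x hx
  have h1 : openSegment ℝ (mk (12 / 5 * r + n + 1 / 2) (r + 1 / 2)) x ⊆ reg n r := by
    rintro _ ⟨a, b, ha, hb, hab, rfl⟩
    obtain ⟨⟨h1, h2⟩, h3, h4⟩ := hx
    unfold off at h3 h4
    unfold reg cell off
    simp only [mem_ofPred_eq, mem_Ioo]
    rw [cu_add_smul, ct_add_smul, cu_mk, ct_mk]
    have ha' : a = 1 - b := by linarith
    subst ha'
    refine ⟨⟨?_, ?_⟩, ?_, ?_⟩ <;> nlinarith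
  have h2 : x ∈ closure (openSegment ℝ (mk (12 / 5 * r + n + 1 / 2) (r + 1 / 2)) x) := by
    rw [closure_openSegment]
    exact right_mem_segment _ _ _
  exact closure_mono h1 h2

lemma closure_reg (n r : ℤ) : closure (reg n r) = creg n r :=
  Subset.antisymm (closure_minimal (reg_sub_creg n r) (creg_closed n r)) (creg_closure n r)

lemma frontier_reg (n r : ℤ) : frontier (reg n r) = creg n r \ reg n r := by
  rw [(reg_open n r).frontier_eq, closure_reg]

lemma norm_le (x : Plane) : ‖x‖ ≤ |x 0| + |x 1| := by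
  rw [EuclideanSpace.norm_eq, Fin.sum_univ_two]
  apply Real.sqrt_le_iff.2
  constructor
  · positivity
  · simp only [Real.norm_eq_abs]
    nlinarith [abs_nonneg (x 0), abs_nonneg (x 1)]

lemma abs_le_norm (x : Plane) (i : Fin 2) : |x i| ≤ ‖x‖ := by
  rw [EuclideanSpace.norm_eq]
  apply Real.le_sqrt_of_sq_le
  have : |x i| ^ 2 = ‖x i‖ ^ 2 := by rw [Real.norm_eq_abs]
  rw [this]
  exact Finset.single_le_sum (f := fun j => ‖x j‖ ^ 2) (fun j _ => by positivity) (Finset.mem_univ i)

lemma reg_bdd (n r : ℤ) : Bornology.IsBounded (reg n r) := by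
  rw [isBounded_iff_forall_norm_le]
  refine ⟨(|12 / 5 * (r:ℝ) + n| + 1) + (|(r:ℝ)| + 1), ?_⟩
  rintro x ⟨⟨h1, h2⟩, h3, h4⟩
  unfold off cu at h3 h4
  unfold ct at h1 h2
  refine (norm_le x).trans (add_le_add ?_ ?_)
  · rw [abs_le]
    have := abs_nonneg (12 / 5 * (r:ℝ) + n)
    have := neg_abs_le (12 / 5 * (r:ℝ) + n)
    have := le_abs_self (12 / 5 * (r:ℝ) + n)
    constructor <;> linarith
  · rw [abs_le]
    have := abs_nonneg (r:ℝ)
    have := neg_abs_le (r:ℝ)
    have := le_abs_self (r:ℝ)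
    constructor <;> linarith

end Pool.Agent.N466.Poly
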