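import Pool.Agent.N466.Poly.Upper1

set_option autoImplicit false

namespace Pool.Agent.N466.Poly

open Set

/-- the vertices, borders and regions of the brick tiling -/
def brV : Set Plane := {x | ∃ n r : ℤ, x = vA n r ∨ x = vB n r}
def brB : Set (Set Plane) := {b | ∃ n r : ℤ, b = bH n r ∨ b = bG n r ∨ b = bV n r}
def brR : Set (Set Plane) := {R | ∃ n r : ℤ, R = reg n r}

/-- row and column of a point -/
noncomputable def row (x : Plane) : ℤ := ⌊ct x⌋
noncomputable def col (x : Plane) : ℤ := ⌊cu x - 12 / 5 * (row x : ℝ)⌋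

lemma row_col (x : Plane) : ct x - row x ∈ Ico (0:ℝ) 1 ∧ off (col x) (row x) x ∈ Ico (0:ℝ) 1 := by
  have h1 : (row x : ℝ) ≤ ct x := Int.floor_le _
  have h2 : ct x < row x + 1 := Int.lt_floor_add_one _
  have h3 : (col x : ℝ) ≤ cu x - 12 / 5 * (row x : ℝ) := Int.floor_le _
  have h4 : cu x - 12 / 5 * (row x : ℝ) < col x + 1 := Int.lt_floor_add_one _
  unfold off
  exact ⟨⟨by linarith, by linarith⟩, by linarith, by linarith⟩

lemma row_col_eq {J K : Set ℝ} (hJ : J ⊆ Ico 0 1) (hK : K ⊆ Ico 0 1) {n r : ℤ} {x : Plane}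
    (h : x ∈ cell J K n r) : col x = n ∧ row x = r :=
  cell_unique (J := Ico 0 1) (K := Ico 0 1) Subset.rfl Subset.rfl hJ hK (row_col x) h

lemma s0 : ({0} : Set ℝ) ⊆ Ico 0 1 := by
  rintro x hx; rw [mem_singleton_iff] at hx; rw [hx]; exact ⟨le_rfl, one_pos⟩

lemma s35 : ({3 / 5} : Set ℝ) ⊆ Ico 0 1 := by
  rintro x hx; rw [mem_singleton_iff] at hx; rw [hx]; constructor <;> norm_num

lemma s1 : (Ioo (0:ℝ) (3 / 5)) ⊆ Ico 0 1 := fun x hx => ⟨hx.1.le, by linarith [hx.2]⟩
lemma s2 : (Ioo (3 / 5 : ℝ) 1) ⊆ Ico 0 1 := fun x hx => ⟨by linarith [hx.1], hx.2⟩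
lemma s3 : (Ioo (0:ℝ) 1) ⊆ Ico 0 1 := Ioo_subset_Ico_self

lemma br_cover (x : Plane) : x ∈ brV ∨ (∃ b ∈ brB, x ∈ b) ∨ ∃ R ∈ brR, x ∈ R := by
  obtain ⟨⟨h1, h2⟩, h3, h4⟩ := row_col x
  rcases eq_or_lt_of_le h1 with h5 | h5
  · rcases eq_or_lt_of_le h3 with h6 | h6
    · left
      exact ⟨col x, row x, Or.inl ((vA_cell _ _ _).2 ⟨h5.symm, h6.symm⟩)⟩
    · rcases lt_trichotomy (off (col x) (row x) x) (3 / 5) with h7 | h7 | h7
      · right; left
        refine ⟨bH (col x) (row x), ⟨col x, row x, Or.inl rfl⟩, ?_⟩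
        rw [bH_cell]
        exact ⟨h5.symm, h6, h7⟩
      · left
        exact ⟨col x, row x, Or.inr ((vB_cell _ _ _).2 ⟨h5.symm, h7⟩)⟩
      · right; left
        refine ⟨bG (col x) (row x), ⟨col x, row x, Or.inr (Or.inl rfl)⟩, ?_⟩
        rw [bG_cell]
        exact ⟨h5.symm, h7, h4⟩
  · rcases eq_or_lt_of_le h3 with h6 | h6
    · right; left
      refine ⟨bV (col x) (row x), ⟨col x, row x, Or.inr (Or.inr rfl)⟩, ?_⟩
      rw [bV_cell]
      exact ⟨⟨h5, h2⟩, h6.symm⟩
    · right; right
      exact ⟨reg (col x) (row x), ⟨col x, row x, rfl⟩, ⟨h5, h2⟩, h6, h4⟩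

/-- the type of a point: its cell -/
lemma in_V {x : Plane} (hx : x ∈ brV) :
    x ∈ cell {0} {0} (col x) (row x) ∨ x ∈ cell {0} {3 / 5} (col x) (row x) := by
  obtain ⟨n, r, h | h⟩ := hx
  · left
    have h1 := (vA_cell n r x).1 h
    obtain ⟨h2, h3⟩ := row_col_eq s0 s0 h1
    rw [h2, h3]; exact h1
  · right
    have h1 := (vB_cell n r x).1 h
    obtain ⟨h2, h3⟩ := row_col_eq s0 s35 h1
    rw [h2, h3]; exact h1

lemma in_B {b : Set Plane} (hb : b ∈ brB) {x : Plane} (hx : x ∈ b) :
    (b = bH (col x) (row x) ∧ x ∈ cell {0} (Ioo 0 (3 / 5)) (col x) (row x)) ∨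
    (b = bG (col x) (row x) ∧ x ∈ cell {0} (Ioo (3 / 5) 1) (col x) (row x)) ∨
    (b = bV (col x) (row x) ∧ x ∈ cell (Ioo 0 1) {0} (col x) (row x)) := by
  obtain ⟨n, r, h | h | h⟩ := hb
  · left
    have h1 := hx
    rw [h, bH_cell] at h1
    obtain ⟨h2, h3⟩ := row_col_eq s0 s1 h1
    rw [h2, h3]; exact ⟨h, h1⟩
  · right; left
    have h1 := hx
    rw [h, bG_cell] at h1
    obtain ⟨h2, h3⟩ := row_col_eq s0 s2 h1
    rw [h2, h3]; exact ⟨h, h1⟩
  · right; right
    have h1 := hx
    rw [h, bV_cell] at h1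
    obtain ⟨h2, h3⟩ := row_col_eq s3 s0 h1
    rw [h2, h3]; exact ⟨h, h1⟩

lemma in_R {R : Set Plane} (hR : R ∈ brR) {x : Plane} (hx : x ∈ R) :
    R = reg (col x) (row x) ∧ x ∈ cell (Ioo 0 1) (Ioo 0 1) (col x) (row x) := by
  obtain ⟨n, r, h⟩ := hR
  have h1 := hx
  rw [h] at h1
  obtain ⟨h2, h3⟩ := row_col_eq s3 s3 h1
  rw [h2, h3]; exact ⟨h, h1⟩

lemma br_vertex_border : ∀ b ∈ brB, Disjoint brV b := by
  intro b hb
  rw [disjoint_left]
  intro x hx hxb
  have h1 := in_V hx
  have h2 := in_B hb hxb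
  simp only [cell, mem_ofPred_eq, mem_singleton_iff, mem_Ioo] at h1 h2
  rcases h1 with ⟨a1, a2⟩ | ⟨a1, a2⟩ <;> rcases h2 with ⟨_, a3, a4, a5⟩ | ⟨_, a3, a4, a5⟩ | ⟨_, ⟨a3, a4⟩, a5⟩ <;>
    linarith

lemma br_vertex_region : ∀ R ∈ brR, Disjoint brV R := by
  intro R hR
  rw [disjoint_left]
  intro x hx hxR
  have h1 := in_V hx
  have h2 := (in_R hR hxR).2
  simp only [cell, mem_ofPred_eq, mem_singleton_iff, mem_Ioo] at h1 h2
  rcases h1 with ⟨a1, a2⟩ | ⟨a1, a2⟩ <;> linarith [h2.1.1]

lemma br_border_region : ∀ b ∈ brB, ∀ R ∈ brR, Disjoint b R := by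
  intro b hb R hR
  rw [disjoint_left]
  intro x hxb hxR
  have h1 := in_B hb hxb
  have h2 := (in_R hR hxR).2
  simp only [cell, mem_ofPred_eq, mem_singleton_iff, mem_Ioo] at h1 h2
  rcases h1 with ⟨_, a3, a4, a5⟩ | ⟨_, a3, a4, a5⟩ | ⟨_, ⟨a3, a4⟩, a5⟩ <;> linarith [h2.1.1, h2.2.1]

lemma br_border_disj : ∀ b ∈ brB, ∀ b' ∈ brB, b ≠ b' → Disjoint b b' := by
  intro b hb b' hb' hne
  rw [disjoint_left]
  intro x hxb hxb'
  have h1 := in_B hb hxb
  have h2 := in_B hb' hxb'
  simp only [cell, mem_ofPred_eq, mem_singleton_iff, mem_Ioo] at h1 h2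
  rcases h1 with ⟨e1, a3, a4, a5⟩ | ⟨e1, a3, a4, a5⟩ | ⟨e1, ⟨a3, a4⟩, a5⟩ <;>
    rcases h2 with ⟨e2, c3, c4, c5⟩ | ⟨e2, c3, c4, c5⟩ | ⟨e2, ⟨c3, c4⟩, c5⟩ <;>
    first | exact hne (e1.trans e2.symm) | linarith

lemma br_region_disj : ∀ R ∈ brR, ∀ R' ∈ brR, R ≠ R' → Disjoint R R' := by
  intro R hR R' hR' hne
  rw [disjoint_left]
  intro x hx hx'
  exact hne ((in_R hR hx).1.trans (in_R hR' hx').1.symm)

/-- the boundary of a brick consists of vertices and borders -/
lemma br_frontier : ∀ R ∈ brR, ∀ x ∈ frontier R, x ∈ brV ∨ ∃ b ∈ brB, x ∈ b ∧ b ⊆ frontier R := by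
  rintro R ⟨n, r, rfl⟩ x hx
  rw [frontier_reg] at hx
  obtain ⟨hx1, hx2⟩ := hx
  have hdisR : ∀ b ∈ brB, Disjoint b (reg n r) := fun b hb => br_border_region b hb _ ⟨n, r, rfl⟩
  rcases br_cover x with h | ⟨b, hb, hxb⟩ | ⟨R, hR, hxR⟩
  · exact Or.inl h
  · right
    refine ⟨b, hb, hxb, ?_⟩
    have hsub : b ⊆ creg n r := by
      have h1 := in_B hb hxb
      obtain ⟨⟨c1, c2⟩, c3, c4⟩ := hx1
      unfold off at c3 c4
      rcases h1 with ⟨e1, h2, h3⟩ | ⟨e1, h2, h3⟩ | ⟨e1, h2, h3⟩
      · rw [mem_singleton_iff] at h2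
        obtain ⟨h4, h5⟩ := h3
        unfold off at h4 h5
        rw [e1, bH_cell]
        generalize row x = r' at *
        generalize col x = n' at *
        have hr : r ≤ r' := by
          have : (r : ℝ) < r' + 1 := by linarith
          have : r < r' + 1 := by exact_mod_cast this
          omega
        have hr' : r' ≤ r + 1 := by
          have : (r' : ℝ) < r + 1 + 1 := by linarith
          have : r' < r + 1 + 1 := by exact_mod_cast this
          omega
        have hcase : r' = r ∨ r' = r + 1 := by omega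
        rcases hcase with rfl | rfl
        · have hn : n' = n := int_eq (by linarith) (by linarith)
          subst hn
          rintro y ⟨g1, g2, g3⟩
          rw [mem_singleton_iff] at g1
          unfold off at g2 g3
          unfold creg cell off
          simp only [mem_ofPred_eq, mem_Icc]
          exact ⟨⟨by linarith, by linarith⟩, by linarith, by linarith⟩
        · push_cast at h2 h4 h5
          have hn : n' + 2 = n := int_eq (by push_cast; linarith) (by push_cast; linarith)
          subst hn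
          rintro y ⟨g1, g2, g3⟩
          rw [mem_singleton_iff] at g1
          unfold off at g2 g3
          unfold creg cell off
          push_cast at g1 g2 g3 ⊢
          simp only [mem_ofPred_eq, mem_Icc]
          exact ⟨⟨by linarith, by linarith⟩, by linarith, by linarith⟩
      · rw [mem_singleton_iff] at h2
        obtain ⟨h4, h5⟩ := h3
        unfold off at h4 h5
        rw [e1, bG_cell]
        generalize row x = r' at *
        generalize col x = n' at *
        have hr : r ≤ r' := by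
          have : (r : ℝ) < r' + 1 := by linarith
          have : r < r' + 1 := by exact_mod_cast this
          omega
        have hr' : r' ≤ r + 1 := by
          have : (r' : ℝ) < r + 1 + 1 := by linarith
          have : r' < r + 1 + 1 := by exact_mod_cast this
          omega
        have hcase : r' = r ∨ r' = r + 1 := by omega
        rcases hcase with rfl | rfl
        · have hn : n' = n := int_eq (by linarith) (by linarith)
          subst hn
          rintro y ⟨g1, g2, g3⟩
          rw [mem_singleton_iff] at g1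
          unfold off at g2 g3
          unfold creg cell off
          simp only [mem_ofPred_eq, mem_Icc]
          exact ⟨⟨by linarith, by linarith⟩, by linarith, by linarith⟩
        · push_cast at h2 h4 h5
          have hn : n' + 3 = n := int_eq (by push_cast; linarith) (by push_cast; linarith)
          subst hn
          rintro y ⟨g1, g2, g3⟩
          rw [mem_singleton_iff] at g1
          unfold off at g2 g3
          unfold creg cell off
          push_cast at g1 g2 g3 ⊢
          simp only [mem_ofPred_eq, mem_Icc]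
          exact ⟨⟨by linarith, by linarith⟩, by linarith, by linarith⟩
      · obtain ⟨h4, h5⟩ := h2
        rw [mem_singleton_iff] at h3
        unfold off at h3
        rw [e1, bV_cell]
        generalize row x = r' at *
        generalize col x = n' at *
        have hr : r' = r := int_eq (by linarith) (by linarith)
        subst hr
        have hn1 : n ≤ n' := by
          have : (n : ℝ) ≤ n' := by linarith
          exact_mod_cast this
        have hn2 : n' ≤ n + 1 := by
          have : (n' : ℝ) ≤ ((n + 1 : ℤ) : ℝ) := by push_cast; linarith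
          exact_mod_cast this
        have hcase : n' = n ∨ n' = n + 1 := by omega
        rcases hcase with rfl | rfl
        · rintro y ⟨⟨g1, g2⟩, g3⟩
          rw [mem_singleton_iff] at g3
          unfold off at g3
          unfold creg cell off
          simp only [mem_ofPred_eq, mem_Icc]
          exact ⟨⟨by linarith, by linarith⟩, by linarith, by linarith⟩
        · rintro y ⟨⟨g1, g2⟩, g3⟩
          rw [mem_singleton_iff] at g3
          unfold off at g3
          unfold creg cell off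
          push_cast at g3 ⊢
          simp only [mem_ofPred_eq, mem_Icc]
          exact ⟨⟨by linarith, by linarith⟩, by linarith, by linarith⟩
    rw [frontier_reg]
    intro y hy
    exact ⟨hsub hy, fun h => disjoint_left.1 (hdisR b hb) hy h⟩
  · exfalso
    -- a point of another region is not in the closed brick
    have h1 := (in_R hR hxR).2
    obtain ⟨⟨c1, c2⟩, c3, c4⟩ := hx1
    obtain ⟨⟨h2, h3⟩, h4, h5⟩ := h1
    apply hx2
    unfold off at c3 c4 h4 h5
    have hr : row x = r := int_eq (by linarith) (by linarith)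
    rw [hr] at h2 h3 h4 h5
    have hn : col x = n := int_eq (by linarith) (by linarith)
    rw [hn] at h4 h5
    unfold reg cell off
    exact ⟨⟨h2, h3⟩, h4, h5⟩

/-- closed bricks that touch are equal or have different colours -/
lemma creg_touch {n r n' r' : ℤ} {x : Plane} (h : x ∈ creg n r) (h' : x ∈ creg n' r')
    (hmod : n % 7 = n' % 7) : n = n' ∧ r = r' := by
  have key : ∀ n r n' r' : ℤ, r ≤ r' → x ∈ creg n r → x ∈ creg n' r' → n % 7 = n' % 7 →
      n = n' ∧ r = r' := by
    intro n r n' r' hrr h h' hmod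
    obtain ⟨⟨c1, c2⟩, c3, c4⟩ := h
    obtain ⟨⟨d1, d2⟩, d3, d4⟩ := h'
    unfold off at c3 c4 d3 d4
    have hr' : r' ≤ r + 1 := by
      have : (r' : ℝ) ≤ ((r + 1 : ℤ) : ℝ) := by push_cast; linarith
      exact_mod_cast this
    have hcase : r' = r ∨ r' = r + 1 := by omega
    rcases hcase with rfl | rfl
    · have h1 : n ≤ n' + 1 := by
        have : (n : ℝ) ≤ ((n' + 1 : ℤ) : ℝ) := by push_cast; linarith
        exact_mod_cast this
      have h2 : n' ≤ n + 1 := by
        have : (n' : ℝ) ≤ ((n + 1 : ℤ) : ℝ) := by push_cast; linarith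
        exact_mod_cast this
      exact ⟨by omega, rfl⟩
    · exfalso
      push_cast at d1 d2 d3 d4
      have h1 : n < n' + 4 := by
        have : (n : ℝ) < ((n' + 4 : ℤ) : ℝ) := by push_cast; linarith
        exact_mod_cast this
      have h2 : n' + 1 < n := by
        have : ((n' + 1 : ℤ) : ℝ) < (n : ℝ) := by push_cast; linarith
        exact_mod_cast this
      omega
  rcases le_total r r' with h1 | h1
  · exact key n r n' r' h1 h h' hmod
  · obtain ⟨h2, h3⟩ := key n' r' n r h1 h' h hmod.symm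
    exact ⟨h2.symm, h3.symm⟩

/-- the colour of a point -/
noncomputable def brC (x : Plane) : Fin 7 := ⟨(col x % 7).toNat, by
  have h1 : 0 ≤ col x % 7 := Int.emod_nonneg _ (by norm_num)
  have h2 : col x % 7 < 7 := Int.emod_lt_of_pos _ (by norm_num)
  omega⟩

lemma brC_eq {x y : Plane} (h : brC x = brC y) : col x % 7 = col y % 7 := by
  have h1 : 0 ≤ col x % 7 := Int.emod_nonneg _ (by norm_num)
  have h2 : 0 ≤ col y % 7 := Int.emod_nonneg _ (by norm_num)
  have h3 : (col x % 7).toNat = (col y % 7).toNat := congrArg Fin.val h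
  omega

lemma br_unit (x y : Plane) (h : dist x y = 1) : brC x ≠ brC y := by
  intro hc
  have hmod := brC_eq hc
  have key : ∀ z : Plane, (⟨z 0, z 1⟩ : ℂ) ∈ Pl.wall (col z % 7) := by
    intro z
    obtain ⟨⟨h1, h2⟩, h3, h4⟩ := row_col z
    refine mem_iUnion.2 ⟨(col z / 7, row z), ?_⟩
    have h8 : col z = 7 * (col z / 7) + col z % 7 := (Int.mul_ediv_add_emod _ 7).symm
    have h9 : (col z : ℝ) = 7 * ((col z / 7 : ℤ) : ℝ) + ((col z % 7 : ℤ) : ℝ) := by exact_mod_cast h8
    unfold off cu at h3 h4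
    unfold ct at h1 h2
    simp only [Pl.brick, mem_ofPred_eq]
    exact ⟨by linarith, by linarith, by linarith, by linarith⟩
  apply Pl.wall_free (col x % 7) _ (key x) _ (by rw [hmod]; exact key y)
  have h1 := Pl.sq_dist (⟨x 0, x 1⟩ : ℂ) (⟨y 0, y 1⟩ : ℂ)
  rw [EuclideanSpace.dist_eq, Fin.sum_univ_two, Real.sqrt_eq_one] at h
  rw [Real.dist_eq, Real.dist_eq, sq_abs, sq_abs] at h
  simp only at h1
  rw [h] at h1
  have h2 := norm_nonneg ((⟨x 0, x 1⟩ : ℂ) - ⟨y 0, y 1⟩)
  nlinarith

end Pool.Agent.N466.Poly
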