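import Pool.Agent.N466.Poly.Upper2

set_option autoImplicit false

namespace Pool.Agent.N466.Poly

open Set

lemma vA_mem (n r : ℤ) : vA n r ∈ brV := ⟨n, r, Or.inl rfl⟩
lemma vB_mem (n r : ℤ) : vB n r ∈ brV := ⟨n, r, Or.inr rfl⟩

lemma br_border_eq : ∀ b ∈ brB, ∃ p ∈ brV, ∃ q ∈ brV, p ≠ q ∧ b = openSegment ℝ p q := by
  rintro b ⟨n, r, h | h | h⟩
  · refine ⟨_, vA_mem n r, _, vB_mem n r, ?_, h⟩
    intro h1
    have h2 := congrArg cu h1
    rw [vA, vB, cu_mk, cu_mk] at h2
    linarith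
  · refine ⟨_, vB_mem n r, _, vA_mem (n + 1) r, ?_, h⟩
    intro h1
    have h2 := congrArg cu h1
    rw [vA, vB, cu_mk, cu_mk] at h2
    push_cast at h2
    linarith
  · refine ⟨_, vA_mem n r, _, vB_mem (n - 3) (r + 1), ?_, h⟩
    intro h1
    have h2 := congrArg ct h1
    rw [vA, vB, ct_mk, ct_mk] at h2
    push_cast at h2
    linarith

lemma angle_ne {p q q' : Plane} (h : ct q = ct p) (h' : ct q' ≠ ct p) :
    EuclideanGeometry.angle q p q' ≠ Real.pi := by
  intro hpi
  rw [EuclideanGeometry.angle_eq_pi_iff_sbtw] at hpi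
  obtain ⟨⟨t, ⟨ht0, ht1⟩, ht⟩, h1, h2⟩ := hpi
  rw [AffineMap.lineMap_apply_module] at ht
  have h3 := congrArg ct ht
  rw [ct_add_smul, h] at h3
  have h4 : t * (ct q' - ct p) = 0 := by linarith
  rcases mul_eq_zero.1 h4 with h5 | h5
  · apply h1
    rw [← ht, h5]
    simp
  · exact h' (by linarith)

lemma br_corner : ∀ p ∈ brV, ∃ q ∈ brV, ∃ q' ∈ brV, openSegment ℝ p q ∈ brB ∧
    openSegment ℝ p q' ∈ brB ∧ openSegment ℝ p q ≠ openSegment ℝ p q' ∧
    EuclideanGeometry.angle q p q' ≠ Real.pi := by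
  have hne : ∀ n r n' r' : ℤ, bH n r ≠ bV n' r' := by
    intro n r n' r' h
    have h1 : mk (n + 1 / 5 + 12 / 5 * r) r ∈ bH n r := by
      rw [bH_cell]
      unfold cell off
      simp only [mem_ofPred_eq, cu_mk, ct_mk, mem_singleton_iff, mem_Ioo]
      exact ⟨by linarith, by linarith, by linarith⟩
    have h2 := h1
    rw [h] at h2
    have hb : bV n' r' ∈ brB := ⟨n', r', Or.inr (Or.inr rfl)⟩
    rw [bH_cell] at h1
    rw [bV_cell] at h2
    obtain ⟨a1, a2⟩ := row_col_eq s0 s1 h1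
    obtain ⟨b1, b2⟩ := row_col_eq s3 s0 h2
    have e : r = r' := by rw [← a2, ← b2]
    subst e
    have c1 := h1.1
    have c2 := h2.1
    rw [mem_singleton_iff] at c1
    linarith [c2.1]
  rintro p ⟨n, r, rfl | rfl⟩
  · refine ⟨vB n r, vB_mem _ _, vB (n - 3) (r + 1), vB_mem _ _, ⟨n, r, Or.inl rfl⟩,
      ⟨n, r, Or.inr (Or.inr rfl)⟩, hne n r n r, ?_⟩
    apply angle_ne
    · rw [vA, vB, ct_mk, ct_mk]
    · rw [vA, vB, ct_mk, ct_mk]; push_cast; intro h; linarith
  · have e : vB n r = vB (n + 3 - 3) (r - 1 + 1) := by congr 1 <;> ring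
    refine ⟨vA n r, vA_mem _ _, vA (n + 3) (r - 1), vA_mem _ _, ?_, ?_, ?_, ?_⟩
    · rw [openSegment_symm]
      exact ⟨n, r, Or.inl rfl⟩
    · rw [openSegment_symm, e]
      exact ⟨n + 3, r - 1, Or.inr (Or.inr rfl)⟩
    · rw [openSegment_symm, openSegment_symm ℝ (vB n r) (vA (n + 3) (r - 1))]
      have h1 := hne n r (n + 3) (r - 1)
      unfold bH bV at h1
      rw [← e] at h1
      exact h1
    · apply angle_ne
      · rw [vA, vB, ct_mk, ct_mk]
      · rw [vA, vB, ct_mk, ct_mk]; push_cast; intro h; linarith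

/-- finitely many cells meet a disk -/
lemma finite_cells (x : Plane) (ρ : ℝ) :
    {p : ℤ × ℤ | ∃ y ∈ Metric.closedBall x ρ, col y = p.1 ∧ row y = p.2}.Finite := by
  obtain ⟨N, hN⟩ := exists_nat_gt (‖x‖ + |ρ|)
  apply Set.Finite.subset (Set.finite_Icc (((-(20 * N + 20) : ℤ), (-(20 * N + 20) : ℤ)) : ℤ × ℤ)
    ((20 * N + 20 : ℤ), (20 * N + 20 : ℤ)))
  rintro ⟨m, r⟩ ⟨y, hy, h1, h2⟩
  simp only at h1 h2
  rw [Metric.mem_closedBall, dist_eq_norm] at hy
  have h3 : ‖y‖ ≤ ‖x‖ + |ρ| := by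
    have e : ‖y‖ = ‖x + (y - x)‖ := by congr 1; abel
    have h4 := norm_add_le x (y - x)
    have h5 := le_abs_self ρ
    linarith
  have h4 := abs_le.1 ((abs_le_norm y 0).trans (h3.trans hN.le))
  have h5 := abs_le.1 ((abs_le_norm y 1).trans (h3.trans hN.le))
  obtain ⟨⟨a1, a2⟩, a3, a4⟩ := row_col y
  rw [h1, h2] at a3 a4
  rw [h2] at a1 a2
  unfold off cu at a3 a4
  unfold ct at a1 a2
  have hr1 : (r : ℝ) ≤ 2 * N + 2 := by linarith
  have hr2 : -(2 * N + 2) ≤ (r : ℝ) := by linarith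
  have hm1 : (m : ℝ) ≤ 20 * N + 20 := by linarith
  have hm2 : -(20 * N + 20) ≤ (m : ℝ) := by linarith
  have hr1' : (r : ℝ) ≤ 20 * N + 20 := by linarith
  have hr2' : -(20 * N + 20) ≤ (r : ℝ) := by linarith
  simp only [mem_Icc, Prod.mk_le_mk]
  refine ⟨⟨?_, ?_⟩, ?_, ?_⟩
  · exact_mod_cast hm2
  · exact_mod_cast hr2'
  · exact_mod_cast hm1
  · exact_mod_cast hr1'

lemma br_finite_vertices (x : Plane) (ρ : ℝ) : (brV ∩ Metric.closedBall x ρ).Finite := by
  have h := finite_cells x ρ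
  apply Set.Finite.subset ((h.image (fun p => vA p.1 p.2)).union (h.image (fun p => vB p.1 p.2)))
  rintro y ⟨hy, hyx⟩
  rcases in_V hy with h1 | h1
  · left
    exact ⟨(col y, row y), ⟨y, hyx, rfl, rfl⟩, ((vA_cell _ _ _).2 h1).symm⟩
  · right
    exact ⟨(col y, row y), ⟨y, hyx, rfl, rfl⟩, ((vB_cell _ _ _).2 h1).symm⟩

lemma br_finite_borders (x : Plane) (ρ : ℝ) :
    {b ∈ brB | (b ∩ Metric.closedBall x ρ).Nonempty}.Finite := by
  have h := finite_cells x ρ
  apply Set.Finite.subset ((h.image (fun p => bH p.1 p.2)).union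
    ((h.image (fun p => bG p.1 p.2)).union (h.image (fun p => bV p.1 p.2))))
  rintro b ⟨hb, y, hy, hyx⟩
  rcases in_B hb hy with h1 | h1 | h1
  · left
    exact ⟨(col y, row y), ⟨y, hyx, rfl, rfl⟩, h1.1.symm⟩
  · right; left
    exact ⟨(col y, row y), ⟨y, hyx, rfl, rfl⟩, h1.1.symm⟩
  · right; right
    exact ⟨(col y, row y), ⟨y, hyx, rfl, rfl⟩, h1.1.symm⟩

lemma br_finite_regions (x : Plane) (ρ : ℝ) :
    {R ∈ brR | (R ∩ Metric.closedBall x ρ).Nonempty}.Finite := by
  have h := finite_cells x ρ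
  apply Set.Finite.subset (h.image (fun p => reg p.1 p.2))
  rintro R ⟨hR, y, hy, hyx⟩
  exact ⟨(col y, row y), ⟨y, hyx, rfl, rfl⟩, (in_R hR hy).1.symm⟩

lemma reg_color {n r : ℤ} {x : Plane} (hx : x ∈ reg n r) : col x = n :=
  (row_col_eq s3 s3 hx).1

lemma br_color_const : ∀ R ∈ brR, ∀ x ∈ R, ∀ y ∈ R, brC x = brC y := by
  rintro R ⟨n, r, rfl⟩ x hx y hy
  unfold brC
  simp only [reg_color hx, reg_color hy]

lemma br_color_ne : ∀ R ∈ brR, ∀ R' ∈ brR, R ≠ R' →
    ((∃ p ∈ brV, p ∈ frontier R ∧ p ∈ frontier R') ∨ ∃ b ∈ brB, b ⊆ frontier R ∧ b ⊆ frontier R') →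
    ∀ x ∈ R, ∀ y ∈ R', brC x ≠ brC y := by
  rintro R ⟨n, r, rfl⟩ R' ⟨n', r', rfl⟩ hne h x hx y hy hc
  have hmod := brC_eq hc
  rw [reg_color hx, reg_color hy] at hmod
  obtain ⟨p, hp, hp'⟩ : ∃ p, p ∈ frontier (reg n r) ∧ p ∈ frontier (reg n' r') := by
    rcases h with ⟨p, _, h1, h2⟩ | ⟨b, hb, h1, h2⟩
    · exact ⟨p, h1, h2⟩
    · obtain ⟨u, _, v, _, _, rfl⟩ := br_border_eq b hb
      obtain ⟨z, hz⟩ : (openSegment ℝ u v).Nonempty :=
        ⟨(1 / 2 : ℝ) • u + (1 / 2 : ℝ) • v, 1 / 2, 1 / 2, by norm_num, by norm_num, by norm_num, rfl⟩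
      exact ⟨z, h1 hz, h2 hz⟩
  rw [frontier_reg] at hp hp'
  obtain ⟨h1, h2⟩ := creg_touch hp.1 hp'.1 hmod
  rw [h1, h2] at hne
  exact hne rfl

/-- the brick colouring -/
noncomputable def brickColoring : PolygonColoring (Fin 7) where
  color := brC
  vertices := brV
  borders := brB
  regions := brR
  unit_ne := br_unit
  border_eq := br_border_eq
  region_open := by rintro R ⟨n, r, rfl⟩; exact reg_open n r
  region_conn := by
    rintro R ⟨n, r, rfl⟩
    exact ⟨⟨_, reg_center n r⟩, (reg_convex n r).isPreconnected⟩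
  region_bdd := by rintro R ⟨n, r, rfl⟩; exact reg_bdd n r
  region_frontier := br_frontier
  cover := br_cover
  vertex_border := br_vertex_border
  vertex_region := br_vertex_region
  border_region := br_border_region
  border_disj := br_border_disj
  region_disj := br_region_disj
  color_const := br_color_const
  color_ne := br_color_ne
  corner := br_corner
  finite_vertices := br_finite_vertices
  finite_borders := br_finite_borders
  finite_regions := br_finite_regions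

lemma end_of_seg {p q x y : Plane} (h : openSegment ℝ p q = openSegment ℝ x y)
    (hp : p ∉ openSegment ℝ x y) : p = x ∨ p = y := by
  have h4 : segment ℝ p q = segment ℝ x y := by
    rw [← closure_openSegment, ← closure_openSegment, h]
  have h5 : p ∈ segment ℝ x y := by rw [← h4]; exact left_mem_segment ℝ p q
  rw [← insert_endpoints_openSegment] at h5
  rcases h5 with h5 | h5 | h5
  · exact Or.inl h5
  · exact Or.inr h5
  · exact absurd h5 hp

lemma vA_inj {n r n' r' : ℤ} (h : vA n r = vA n' r') : n = n' ∧ r = r' := by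
  have h1 := (vA_cell n r _).1 rfl
  have h2 := (vA_cell n' r' _).1 h
  exact cell_unique s0 s0 s0 s0 h1 h2

lemma vB_inj {n r n' r' : ℤ} (h : vB n r = vB n' r') : n = n' ∧ r = r' := by
  have h1 := (vB_cell n r _).1 rfl
  have h2 := (vB_cell n' r' _).1 h
  exact cell_unique s0 s35 s0 s35 h1 h2

lemma vA_ne_vB {n r n' r' : ℤ} (h : vA n r = vB n' r') : False := by
  have h1 := (vA_cell n r _).1 rfl
  have h2 := (vB_cell n' r' _).1 h
  obtain ⟨rfl, rfl⟩ := cell_unique s0 s0 s0 s35 h1 h2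
  have a := h1.2
  have b := h2.2
  rw [mem_singleton_iff] at a b
  rw [a] at b
  norm_num at b

lemma br_degree : ∀ p ∈ brickColoring.vertices, brickColoring.degree p ≤ 3 := by
  classical
  rintro p hp
  have hpb : ∀ b ∈ brB, p ∉ b := fun b hb h => disjoint_left.1 (br_vertex_border b hb) hp h
  have h3 : ∀ a b c : Set Plane, ({a, b, c} : Set (Set Plane)).encard ≤ 3 := by
    intro a b c
    refine (encard_insert_le _ _).trans ?_
    have h1 := encard_insert_le ({c} : Set (Set Plane)) b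
    rw [encard_singleton] at h1
    calc ({b, c} : Set (Set Plane)).encard + 1 ≤ (1 + 1) + 1 := by gcongr
      _ = 3 := by norm_num
  unfold PolygonColoring.degree
  obtain ⟨n, r, rfl | rfl⟩ := hp
  · refine (encard_le_encard ?_).trans (h3 (bH n r) (bG (n - 1) r) (bV n r))
    rintro b ⟨hb, q, _, _, hbq⟩
    have hpb' := hpb b hb
    simp only [mem_insert_iff, mem_singleton_iff]
    obtain ⟨n', r', rfl | rfl | rfl⟩ := hb
    · left
      rcases end_of_seg hbq.symm hpb' with h | h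
      · obtain ⟨rfl, rfl⟩ := vA_inj h; rfl
      · exact absurd h (fun h => vA_ne_vB h)
    · right; left
      rcases end_of_seg hbq.symm hpb' with h | h
      · exact absurd h (fun h => vA_ne_vB h)
      · obtain ⟨rfl, rfl⟩ := vA_inj h
        congr 1; ring
    · right; right
      rcases end_of_seg hbq.symm hpb' with h | h
      · obtain ⟨rfl, rfl⟩ := vA_inj h; rfl
      · exact absurd h (fun h => vA_ne_vB h)
  · refine (encard_le_encard ?_).trans (h3 (bH n r) (bG n r) (bV (n + 3) (r - 1)))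
    rintro b ⟨hb, q, _, _, hbq⟩
    have hpb' := hpb b hb
    simp only [mem_insert_iff, mem_singleton_iff]
    obtain ⟨n', r', rfl | rfl | rfl⟩ := hb
    · left
      rcases end_of_seg hbq.symm hpb' with h | h
      · exact absurd h.symm (fun h => vA_ne_vB h)
      · obtain ⟨rfl, rfl⟩ := vB_inj h; rfl
    · right; left
      rcases end_of_seg hbq.symm hpb' with h | h
      · obtain ⟨rfl, rfl⟩ := vB_inj h; rfl
      · exact absurd h.symm (fun h => vA_ne_vB h)
    · right; right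
      rcases end_of_seg hbq.symm hpb' with h | h
      · exact absurd h.symm (fun h => vA_ne_vB h)
      · obtain ⟨h1, h2⟩ := vB_inj h
        have e1 : n' = n + 3 := by omega
        have e2 : r' = r - 1 := by omega
        rw [e1, e2]

end Pool.Agent.N466.Poly
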